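import Pool.Agent.Run7.h687.Sft

set_option autoImplicit false

namespace Run7.h687.Lamp

/-- the two generators -/
noncomputable def tP : Equiv.Perm (ℤ × (ℤ →₀ ZMod 2)) :=
  Equiv.prodCongr (Equiv.addRight (1 : ℤ)) (Equiv.refl (ℤ →₀ ZMod 2))

/-- the two generators -/
noncomputable def sP : Equiv.Perm (ℤ × (ℤ →₀ ZMod 2)) :=
  Equiv.prodShear (Equiv.refl ℤ) (fun n : ℤ => Equiv.addRight (Finsupp.single n (1 : ZMod 2)))

lemma tP_apply (p : ℤ × K) : tP p = (p.1 + 1, p.2) := rfl

lemma sP_apply (p : ℤ × K) : sP p = (p.1, p.2 + Finsupp.single p.1 1) := rfl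

section
variable (G : Subgroup (Equiv.Perm (ℤ × (ℤ →₀ ZMod 2)))) (hG : G = Subgroup.closure {tP, sP})

include hG in
lemma comm_lm (g : Equiv.Perm (ℤ × (ℤ →₀ ZMod 2))) (hg : g ∈ G) :
    ∀ q p, g (lm q p) = lm q (g p) := by
  rw [hG] at hg
  induction hg using Subgroup.closure_induction with
  | mem x hx =>
    intro q p
    rcases hx with h | h
    · rw [h, tP_apply, tP_apply]
      unfold lm
      ext
      · simp only; ring
      · rfl
    · rw [Set.mem_singleton_iff.mp h, sP_apply, sP_apply]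
      unfold lm
      simp only
      ext1
      · rfl
      · simp only
        have := sh_fl q.1 p.1 p.2
        unfold fl at this
        rw [this, add_assoc, add_comm p.1 q.1]
  | one => intro q p; rfl
  | mul x y _ _ hx hy =>
    intro q p
    rw [Equiv.Perm.mul_apply, Equiv.Perm.mul_apply, hy, hx]
  | inv x _ hx =>
    intro q p
    rw [Equiv.Perm.inv_eq_iff_eq, hx, ← Equiv.Perm.mul_apply, mul_inv_cancel, Equiv.Perm.one_apply]

/-- position of a group element -/
noncomputable def pos (g : G) : ℤ × K := (g⁻¹ : G).1 (0, 0)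

include hG in
lemma apply_eq (g : G) (p : ℤ × K) : g.1 p = lm p (g.1 (0, 0)) := by
  have := comm_lm G hG g.1 g.2 p (0, 0)
  rwa [lm_zero] at this

include hG in
lemma pos_mul (g h : G) : pos G (g * h) = lm (pos G g) (pos G h) := by
  unfold pos
  rw [mul_inv_rev]
  show (h⁻¹ : G).1 ((g⁻¹ : G).1 (0, 0)) = _
  exact apply_eq G hG _ _

include hG in
lemma pos_inj : Function.Injective (pos G) := by
  intro g h e
  have : (g⁻¹ : G) = h⁻¹ := by
    apply Subtype.ext
    apply Equiv.ext
    intro p
    rw [apply_eq G hG, apply_eq G hG (h⁻¹)]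
    unfold pos at e
    rw [e]
  exact inv_injective this

include hG in
lemma tP_mem : tP ∈ G := by
  rw [hG]; exact Subgroup.subset_closure (Or.inl rfl)

include hG in
lemma sP_mem : sP ∈ G := by
  rw [hG]; exact Subgroup.subset_closure (Or.inr rfl)

lemma tP_zpow (k : ℤ) (p : ℤ × K) : (tP ^ k) p = (p.1 + k, p.2) := by
  induction k using Int.induction_on generalizing p with
  | zero => simp
  | succ k ih =>
    rw [zpow_add, zpow_one, Equiv.Perm.mul_apply, tP_apply, ih]
    simp only
    ext1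
    · simp only; ring
    · rfl
  | pred k ih =>
    rw [zpow_sub, zpow_one, Equiv.Perm.mul_apply]
    have : (tP⁻¹) p = (p.1 - 1, p.2) := by
      rw [Equiv.Perm.inv_eq_iff_eq, tP_apply]
      simp
    rw [this, ih]
    simp only
    ext1
    · simp only; ring
    · rfl

include hG in
lemma pos_surj : Function.Surjective (pos G) := by
  -- the orbit of (0,0)
  have horb : ∀ p : ℤ × K, ∃ g : G, g.1 (0, 0) = p := by
    have hz : ∀ (k : ℤ) (p : ℤ × K), (∃ g : G, g.1 (0, 0) = p) → ∃ g : G, g.1 (0, 0) = (k, p.2) := by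
      rintro k p ⟨g, hg⟩
      refine ⟨⟨tP ^ (k - p.1) * g.1, G.mul_mem (G.zpow_mem (tP_mem G hG) _) g.2⟩, ?_⟩
      show (tP ^ (k - p.1)) (g.1 (0, 0)) = _
      rw [hg, tP_zpow]
      ext1
      · simp only; ring
      · rfl
    have hs : ∀ (k : ℤ) (f : K), (∃ g : G, g.1 (0, 0) = (k, f)) →
        ∃ g : G, g.1 (0, 0) = (k, f + Finsupp.single k 1) := by
      rintro k f ⟨g, hg⟩
      refine ⟨⟨sP * g.1, G.mul_mem (sP_mem G hG) g.2⟩, ?_⟩
      show sP (g.1 (0, 0)) = _
      rw [hg, sP_apply]
    have hall : ∀ s : Finset ℤ, ∃ g : G, g.1 (0, 0) = (0, ∑ i ∈ s, Finsupp.single i (1 : ZMod 2)) := by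
      classical
      intro s
      induction s using Finset.induction_on with
      | empty => exact ⟨1, by simp⟩
      | insert a s ha ih =>
        have h1 := hz a _ ih
        have h2 := hs a _ h1
        have h3 := hz 0 _ h2
        rw [Finset.sum_insert ha, add_comm]
        exact h3
    rintro ⟨k, f⟩
    have := hz k _ (hall f.support)
    simp only [sum_support] at this
    exact this
  intro p
  obtain ⟨g, hg⟩ := horb p
  refine ⟨g⁻¹, ?_⟩
  unfold pos
  rw [inv_inv]
  exact hg

include hG in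
/-- Transport of a subshift of finite type on positions to the group `G`. -/
theorem to_group {Q : Type} [Finite Q] [Nonempty Q] (S : Sft Q) (Bad : ℤ × K → Prop)
    (hne : S.X.Nonempty) (hmix : Mixing S.X)
    (hfree : ∀ z ∈ S.X, ∀ q, (∀ p, z (lm q p) = z p) → ¬ Bad q) :
    ∃ k : ℕ, ∃ F : Finset G, ∃ P : Set (F → Fin k),
      (∃ x : G → Fin k, ∀ g : G, (fun h : F => x (g * (h : G))) ∈ P) ∧
      (∀ x : G → Fin k, (∀ g : G, (fun h : F => x (g * (h : G))) ∈ P) →
        ∀ g : G, (∀ h : G, x (g⁻¹ * h) = x h) → ¬ Bad ((g : Equiv.Perm (ℤ × K)) (0, 0))) ∧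
      (∀ x y : G → Fin k,
        (∀ g : G, (fun h : F => x (g * (h : G))) ∈ P) →
        (∀ g : G, (fun h : F => y (g * (h : G))) ∈ P) →
        ∀ W : Finset G, ∃ C : Finset G, ∀ g : G, g ∉ C →
          ∃ z : G → Fin k, (∀ g' : G, (fun h : F => z (g' * (h : G))) ∈ P) ∧
            (∀ h ∈ W, z h = x h) ∧ (∀ h ∈ W, z (g⁻¹ * h) = y h)) := by
  classical
  obtain ⟨k, ⟨e⟩⟩ := Finite.exists_equiv_fin Q
  let pe : G ≃ ℤ × K := Equiv.ofBijective (pos G) ⟨pos_inj G hG, pos_surj G hG⟩
  have hpe : ∀ g : G, pe g = pos G g := fun g => rfl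
  have hpm : ∀ g h : G, pe (g * h) = lm (pe g) (pe h) := fun g h => pos_mul G hG g h
  have hps : ∀ (g : G) (p : ℤ × K), g * pe.symm p = pe.symm (lm (pe g) p) := by
    intro g p
    apply pe.injective
    rw [hpm, Equiv.apply_symm_apply, Equiv.apply_symm_apply]
  let q0 : Q := Classical.arbitrary Q
  let F : Finset G := S.F0.image pe.symm
  let P : Set (F → Fin k) := {pat | S.loc (fun p =>
    if h : pe.symm p ∈ F then e.symm (pat ⟨pe.symm p, h⟩) else q0)}
  -- translation between the two pictures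
  have hX : ∀ x : G → Fin k, (∀ g : G, (fun h : F => x (g * (h : G))) ∈ P) ↔
      (fun p => e.symm (x (pe.symm p))) ∈ S.X := by
    intro x
    have hloc : ∀ g : G, (fun h : F => x (g * (h : G))) ∈ P ↔
        S.loc (fun p => e.symm (x (pe.symm (lm (pe g) p)))) := by
      intro g
      have hagree : ∀ p ∈ S.F0,
          (if h : pe.symm p ∈ F then e.symm (x (g * pe.symm p)) else q0) =
            e.symm (x (pe.symm (lm (pe g) p))) := by
        intro p hp
        have : pe.symm p ∈ F := Finset.mem_image_of_mem _ hp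
        rw [dif_pos this, hps]
      constructor
      · intro h
        exact S.loc_congr _ _ hagree h
      · intro h
        exact S.loc_congr _ _ (fun p hp => (hagree p hp).symm) h
    constructor
    · intro h q
      have := (hloc (pe.symm q)).mp (h _)
      rw [Equiv.apply_symm_apply] at this
      exact this
    · intro h g
      exact (hloc g).mpr (h (pe g))
  have hback : ∀ z : (ℤ × K) → Q, z ∈ S.X →
      ∀ g : G, (fun h : F => (fun g => e (z (pe g))) (g * (h : G))) ∈ P := by
    intro z hz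
    refine (hX (fun g => e (z (pe g)))).mpr ?_
    have : (fun p => e.symm (e (z (pe (pe.symm p))))) = z := by
      funext p
      rw [Equiv.symm_apply_apply, Equiv.apply_symm_apply]
    rw [this]
    exact hz
  refine ⟨k, F, P, ?_, ?_, ?_⟩
  · obtain ⟨z, hz⟩ := hne
    exact ⟨fun g => e (z (pe g)), hback z hz⟩
  · intro x hx g hg
    rw [hX] at hx
    apply hfree _ hx
    intro p
    have h1 := hg (pe.symm p)
    have h2 : g⁻¹ * pe.symm p = pe.symm (lm (pe g⁻¹) p) := hps _ _
    rw [h2] at h1
    have h3 : pe g⁻¹ = g.1 (0, 0) := by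
      rw [hpe]; unfold pos; rw [inv_inv]
    rw [h3] at h1
    show e.symm (x (pe.symm (lm (g.1 (0, 0)) p))) = e.symm (x (pe.symm p))
    rw [h1]
  · intro x y hx hy W
    rw [hX] at hx hy
    obtain ⟨C, hC, h⟩ := hmix (W.image pe)
    have hCfin : {g : G | pe g⁻¹ ∈ C}.Finite := by
      have : Function.Injective (fun g : G => pe g⁻¹) := fun a b hab =>
        inv_injective (pe.injective hab)
      exact hC.preimage this.injOn
    refine ⟨hCfin.toFinset, fun g hg => ?_⟩
    have hg' : pe g⁻¹ ∉ C := fun h' => hg (by rw [Set.Finite.mem_toFinset]; exact h')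
    obtain ⟨z, hz, h1, h2⟩ := h _ hg' _ hx _ hy
    refine ⟨fun g => e (z (pe g)), hback z hz, fun w hw => ?_, fun w hw => ?_⟩
    · have := h1 (pe w) (Finset.mem_image_of_mem _ hw)
      simp only
      rw [this, Equiv.symm_apply_apply, Equiv.apply_symm_apply]
    · have := h2 (pe w) (Finset.mem_image_of_mem _ hw)
      simp only
      rw [hpm, this, Equiv.symm_apply_apply, Equiv.apply_symm_apply]

end

end Run7.h687.Lamp
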