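import Pool.Agent.Run7.h687.Alph

set_option autoImplicit false

namespace Run7.h687.Lamp

lemma vec_zero : vec 0 = 0 := by
  funext i
  simp [vec]

section general
variable {R : Type*} [CommRing R]

lemma PathN.append {SA SB : Set R} (k l : ℕ) : ∀ (a b c : R), PathN SA SB k a b →
    PathN SA SB l b c → PathN SA SB (k + l) a c := by
  induction k with
  | zero =>
    intro a b c h1 h2
    have : a = b := h1
    subst this
    rw [zero_add]; exact h2
  | succ k ih =>
    intro a b c h1 h2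
    obtain ⟨a', hm, hp⟩ := h1
    have e : k + 1 + l = (k + l) + 1 := by omega
    rw [e]
    exact ⟨a', hm, ih a' b c hp h2⟩

lemma PathN.idle {SA SB : Set R} (hne : SB.Nonempty) (a : R) (l : ℕ) : PathN SA SB l a a := by
  obtain ⟨U, hU⟩ := hne
  induction l with
  | zero => rfl
  | succ l ih =>
    exact ⟨a, ⟨0, U, by simp, fun h => absurd rfl h, hU, by simpa using hU, by simpa using hU⟩, ih⟩

lemma PathN.pad {SA SB : Set R} (hne : SB.Nonempty) {k l : ℕ} (hkl : k ≤ l) {a b : R}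
    (h : PathN SA SB k a b) : PathN SA SB l a b := by
  obtain ⟨j, rfl⟩ := Nat.exists_eq_add_of_le hkl
  exact h.append k j a b b (PathN.idle hne b j)

lemma PathN.single {SA SB : Set R} {a b : R} (h : Move SA SB a b) : PathN SA SB 1 a b :=
  ⟨b, h, rfl⟩

lemma SumN.add_two {S : Set R} {N : ℕ} {v w : R} (hv : SumN S N v) (hw : SumN S 2 w) :
    SumN S (N + 2) (v + w) := by
  obtain ⟨U1, h1, U2, h2, h3⟩ := hw
  refine ⟨U1, h1, U2, h2, ?_⟩
  have h3' : w - U1 - U2 = 0 := h3
  have : v + w - U1 - U2 = v := by linear_combination h3'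
  rw [this]
  exact hv

end general

lemma sumN_all {S : Set V} (h : ∀ (i : Fin 6) (s : ZMod 5), SumN S 2 (Pi.single i s)) (v : V) :
    SumN S 12 v := by
  have key : ∀ T : Finset (Fin 6), SumN S (2 * T.card) (∑ i ∈ T, Pi.single i (v i)) := by
    intro T
    induction T using Finset.induction_on with
    | empty => rfl
    | insert a T ha ih =>
      rw [Finset.card_insert_of_notMem ha, Finset.sum_insert ha, mul_add, mul_one]
      have h3 := ih.add_two (h a (v a))
      rw [add_comm (∑ i ∈ T, Pi.single i (v i) : V)] at h3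
      exact h3
  have := key Finset.univ
  rw [Finset.univ_sum_single] at this
  exact this

lemma vec_single : ∀ (i : Fin 6) (s : ZMod 5), vec (s.val * 5 ^ (i : ℕ)) = Pi.single i s := by
  intro i s
  funext j
  have : ∀ (i : Fin 6) (s : ZMod 5) (j : Fin 6),
      ((s.val * 5 ^ (i : ℕ) / 5 ^ (j : ℕ) : ℕ) : ZMod 5) = if j = i then s else 0 := by decide
  rw [Pi.single_apply]
  exact this i s j

lemma mvc_move {LA LB : List ℕ} {n m : ℕ} (h : mvc LA LB n m = true) :
    Move (setOf' LA) (setOf' LB) (vec n) (vec m) := by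
  unfold mvc at h
  simp only [Bool.and_eq_true, List.elem_eq_contains, List.contains_eq_mem, decide_eq_true_eq, List.any_eq_true] at h
  obtain ⟨⟨h1, h2⟩, U, hU, h3, h4⟩ := h
  refine ⟨vec m - vec n, vec U, by ring, fun _ => ⟨⟨m, h1, by ring⟩, ⟨_, h2, ?_⟩⟩, ⟨U, hU, rfl⟩,
    ⟨_, h3, ?_⟩, ⟨_, h4, ?_⟩⟩
  · rw [vec_sub5, vec_sub5]
  · rw [vec_add5, vec_sub5]
  · rw [vec_sub5, vec_sub5]

lemma chain_path {LA LB : List ℕ} (l : List ℕ) : ∀ a : ℕ, chainc LA LB a l = true →
    ∀ b ∈ (a :: l), ∃ k, k ≤ l.length ∧ PathN (setOf' LA) (setOf' LB) k (vec a) (vec b) ∧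
      PathN (setOf' LA) (setOf' LB) k (vec b) (vec a) := by
  induction l with
  | nil =>
    intro a _ b hb
    rw [List.mem_singleton] at hb
    subst hb
    exact ⟨0, le_rfl, rfl, rfl⟩
  | cons a' l ih =>
    intro a h b hb
    simp only [chainc, Bool.and_eq_true] at h
    obtain ⟨⟨h1, h2⟩, h3⟩ := h
    rcases List.mem_cons.mp hb with e | hb'
    · subst e
      exact ⟨0, by omega, rfl, rfl⟩
    · obtain ⟨k, hk, p1, p2⟩ := ih a' h3 b hb'
      refine ⟨k + 1, by simpa using hk, ⟨_, mvc_move h1, p1⟩, ?_⟩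
      exact p2.append k 1 _ _ _ (PathN.single (mvc_move h2))

theorem nice_of_chk {LA LB : List ℕ} {mA mB : ℕ} (h1 : chk LA LB mB = true)
    (h2 : chk LB LA mA = true) : Nice hc5 (setOf' LA) (setOf' LB) ∧ (0 : V) ∉ setOf' LA ∧
      (setOf' LA).Nonempty := by
  unfold chk at h1 h2
  simp only [Bool.and_eq_true, List.all_eq_true] at h1 h2
  obtain ⟨s1, c1, d1, p1, z1, e1⟩ := h1
  obtain ⟨s2, c2, d2, p2, z2, e2⟩ := h2
  simp only [List.elem_eq_contains, List.contains_eq_mem, decide_eq_true_eq, Bool.or_eq_true,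
    Bool.not_eq_true', List.any_eq_true, List.mem_range, beq_iff_eq, decide_eq_false_iff_not] at s1 c1 z1 e1 s2 c2 z2 e2
  have hsym : ∀ L : List ℕ, (∀ n ∈ L, sub5 6 0 n ∈ L ∧ n.blt 15625 = true) →
      Sym (setOf' L) := by
    intro L hL v hv
    obtain ⟨n, hn, rfl⟩ := hv
    refine ⟨_, (hL n hn).1, ?_⟩
    rw [vec_sub5, vec_zero, zero_sub]
  have hneB : (setOf' LB).Nonempty := by
    cases LB with
    | nil => simp at p2
    | cons a l => exact ⟨vec a, a, by simp, rfl⟩
  have hneA : (setOf' LA).Nonempty := by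
    cases LA with
    | nil => simp at p1
    | cons a l => exact ⟨vec a, a, by simp, rfl⟩
  refine ⟨⟨hc5_two, hsym LA s1, hsym LB s2, ?_, hneB, ?_, ?_⟩, ?_, hneA⟩
  · rintro a1 ⟨n1, hn1, rfl⟩ a2 ⟨n2, hn2, rfl⟩ b1 ⟨m1, hm1, rfl⟩ b2 ⟨m2, hm2, rfl⟩ e
    rw [← vec_sub5, ← vec_sub5] at e
    have e' := vec_inj (sub5_lt 6 _ _) (sub5_lt 6 _ _) e
    constructor
    · rcases c1 n1 hn1 n2 hn2 with h | h
      · rw [e', d1 m1 hm1 m2 hm2] at h
        exact absurd h (by simp)
      · exact ⟨_, h, (vec_mid5 _ _).symm⟩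
    · rcases c2 m1 hm1 m2 hm2 with h | h
      · rw [← e', d2 n1 hn1 n2 hn2] at h
        exact absurd h (by simp)
      · exact ⟨_, h, (vec_mid5 _ _).symm⟩
  · cases hLA : LA with
    | nil => rw [hLA] at p1; simp at p1
    | cons a l =>
      rw [← hLA]
      have p1' : chainc LA LB a l = true := by
        rw [hLA] at p1 ⊢
        exact p1
      refine ⟨2 * l.length, ?_⟩
      rintro x ⟨n, hn, rfl⟩ y ⟨m, hm, rfl⟩
      obtain ⟨k1, hk1, -, q1⟩ := chain_path l a p1' n (by rw [← hLA]; exact hn)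
      obtain ⟨k2, hk2, q2, -⟩ := chain_path l a p1' m (by rw [← hLA]; exact hm)
      exact PathN.pad hneB (show k1 + k2 ≤ 2 * l.length by omega) (q1.append k1 k2 _ _ _ q2)
  · refine ⟨12, fun v => sumN_all (fun i s => ?_) v⟩
    obtain ⟨n, hn, hn'⟩ := e2 i i.2 s.val (ZMod.val_lt s)
    refine ⟨vec n, ⟨n, hn, rfl⟩, vec (sub5 6 (s.val * 5 ^ (i : ℕ)) n), ⟨_, hn', rfl⟩, ?_⟩
    show _ = _
    rw [vec_sub5, vec_single, sub_self]
  · rintro ⟨n, hn, h⟩
    rw [← vec_zero] at h
    have := s1 n hn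
    have h15 : n < 5 ^ 6 := by
      have h3 := this.2
      rw [Nat.blt_eq] at h3
      norm_num; exact h3
    have h0 := vec_inj (by norm_num) h15 h
    subst h0
    exact z1 hn

theorem niceAB : Nice hc5 (setOf' listA) (setOf' listB) ∧ Nice hc5 (setOf' listB) (setOf' listA) ∧
    (0 : V) ∉ setOf' listA ∧ (setOf' listA).Nonempty :=
  ⟨(nice_of_chk chkA chkB).1, (nice_of_chk chkB chkA).1, (nice_of_chk chkA chkB).2⟩

end Run7.h687.Lamp
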