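import Mathlib

set_option autoImplicit false

namespace Run7.h687.Lamp

/-- lamp configurations -/
abbrev K := ℤ →₀ ZMod 2

/-- flip the lamp `i` -/
noncomputable def fl (i : ℤ) (f : K) : K := f + Finsupp.single i 1

lemma one_add_one_zmod2 : (1 : ZMod 2) + 1 = 0 := by decide

lemma fl_fl (i : ℤ) (f : K) : fl i (fl i f) = f := by
  unfold fl
  rw [add_assoc, ← Finsupp.single_add, one_add_one_zmod2, Finsupp.single_zero, add_zero]

lemma fl_comm (i j : ℤ) (f : K) : fl i (fl j f) = fl j (fl i f) := by
  unfold fl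
  rw [add_right_comm]

lemma fl_same (i : ℤ) (f : K) : (fl i f) i = f i + 1 := by
  simp [fl]

lemma fl_ne {i j : ℤ} (h : j ≠ i) (f : K) : (fl i f) j = f j := by
  simp [fl, Finsupp.single_apply, h.symm]

lemma fl_same_zero (i : ℤ) (f : K) : (fl i f) i = 0 ↔ f i ≠ 0 := by
  rw [fl_same]
  generalize f i = a
  revert a
  decide

/-- sign of lamp `i` -/
noncomputable def sg (R : Type*) [CommRing R] (i : ℤ) (f : K) : R :=
  if f i = 0 then 1 else -1

section
variable {R : Type*} [CommRing R]

lemma sg_fl_same (i : ℤ) (f : K) : sg R i (fl i f) = - sg R i f := by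
  unfold sg
  by_cases h : f i = 0
  · have : ¬ (fl i f) i = 0 := by
      rw [fl_same_zero]; simpa using h
    rw [if_pos h, if_neg this]
  · have : (fl i f) i = 0 := by
      rw [fl_same_zero]; exact h
    rw [if_neg h, if_pos this]; ring

lemma sg_fl_ne {i j : ℤ} (h : j ≠ i) (f : K) : sg R j (fl i f) = sg R j f := by
  unfold sg
  rw [fl_ne h]

lemma sg_mul_self (i : ℤ) (f : K) : sg R i f * sg R i f = 1 := by
  unfold sg
  split_ifs <;> ring

lemma sg_cases (i : ℤ) (f : K) : sg R i f = 1 ∨ sg R i f = -1 := by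
  unfold sg
  split_ifs
  · exact Or.inl rfl
  · exact Or.inr rfl

/-- average over lamp `i` (with `c` one half) -/
noncomputable def E (c : R) (i : ℤ) (u : K → R) : K → R := fun f => c * (u f + u (fl i f))

/-- difference over lamp `i` -/
noncomputable def d (i : ℤ) (u : K → R) : K → R := fun f => u f - u (fl i f)

/-- iterated averages over `[n, n+j)` -/
noncomputable def av (c : R) (n : ℤ) : ℕ → (K → R) → (K → R)
  | 0, u => u
  | (j + 1), u => E c (n + j) (av c n j u)

/-- average over `[n, q)` -/
noncomputable def A (c : R) (n q : ℤ) (u : K → R) : K → R := av c n (q - n).toNat u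

lemma E_comm (c : R) (i j : ℤ) (u : K → R) : E c i (E c j u) = E c j (E c i u) := by
  funext f
  simp only [E, fl_comm i j f]
  ring

lemma d_E_comm (c : R) (i j : ℤ) (u : K → R) : d i (E c j u) = E c j (d i u) := by
  funext f
  simp only [E, d, fl_comm i j f]
  ring

lemma d_comm (i j : ℤ) (u : K → R) : d i (d j u) = d j (d i u) := by
  funext f
  simp only [d, fl_comm i j f]
  ring

lemma av_E (c : R) (n : ℤ) (j : ℕ) (i : ℤ) (u : K → R) :
    av c n j (E c i u) = E c i (av c n j u) := by
  induction j with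
  | zero => rfl
  | succ j ih => simp only [av, ih]; rw [E_comm]

lemma d_av_comm (c : R) (n : ℤ) (j : ℕ) (i : ℤ) (u : K → R) :
    d i (av c n j u) = av c n j (d i u) := by
  induction j with
  | zero => rfl
  | succ j ih => simp only [av, ← ih]; rw [d_E_comm]

lemma av_succ' (c : R) (n : ℤ) (j : ℕ) (u : K → R) :
    av c n (j + 1) u = av c (n + 1) j (E c n u) := by
  induction j with
  | zero => simp [av]
  | succ j ih =>
    rw [av, ih]
    rw [show (n + ((j + 1 : ℕ) : ℤ)) = (n + 1) + (j : ℤ) by push_cast; ring]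
    rfl

lemma A_self (c : R) (n : ℤ) (u : K → R) : A c n n u = u := by
  simp [A, av]

lemma A_succ_right (c : R) {n q : ℤ} (h : n ≤ q) (u : K → R) :
    A c n (q + 1) u = E c q (A c n q u) := by
  unfold A
  have h1 : (q + 1 - n).toNat = (q - n).toNat + 1 := by omega
  rw [h1, av]
  have h2 : n + ((q - n).toNat : ℤ) = q := by omega
  rw [h2]

lemma A_succ_left (c : R) {n q : ℤ} (h : n < q) (u : K → R) :
    A c n q u = A c (n + 1) q (E c n u) := by
  unfold A
  have h1 : (q - n).toNat = (q - (n + 1)).toNat + 1 := by omega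
  rw [h1, av_succ']

lemma A_E (c : R) (n q i : ℤ) (u : K → R) : A c n q (E c i u) = E c i (A c n q u) :=
  av_E c n _ i u

lemma d_A (c : R) (n q i : ℤ) (u : K → R) : d i (A c n q u) = A c n q (d i u) :=
  d_av_comm c n _ i u

lemma A_trans (c : R) {n p q : ℤ} (h1 : n ≤ p) (h2 : p ≤ q) (u : K → R) :
    A c n q u = A c p q (A c n p u) := by
  obtain ⟨k, rfl⟩ := Int.le.dest h2
  clear h2
  induction k with
  | zero => simp [A_self]
  | succ k ih =>
    have e1 : p + ((k + 1 : ℕ) : ℤ) = (p + (k : ℤ)) + 1 := by push_cast; ring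
    rw [e1, A_succ_right c (by omega), A_succ_right c (by omega), ih]

lemma E_inv (c : R) (i : ℤ) (u : K → R) (f : K) : E c i u (fl i f) = E c i u f := by
  simp only [E, fl_fl]
  ring

lemma E_fl_of_inv (c : R) (i j : ℤ) (u : K → R) (hu : ∀ f, u (fl i f) = u f) (f : K) :
    E c j u (fl i f) = E c j u f := by
  simp only [E]
  rw [hu, fl_comm j i, hu]

lemma A_inv (c : R) {n q i : ℤ} (h1 : n ≤ i) (h2 : i < q) (u : K → R) (f : K) :
    A c n q u (fl i f) = A c n q u f := by
  obtain ⟨k, rfl⟩ := Int.le.dest (show i + 1 ≤ q by omega)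
  clear h2
  induction k generalizing f with
  | zero =>
    rw [show i + 1 + ((0 : ℕ) : ℤ) = i + 1 by simp, A_succ_right c h1, E_inv]
  | succ k ih =>
    have e1 : i + 1 + ((k + 1 : ℕ) : ℤ) = (i + 1 + (k : ℤ)) + 1 := by push_cast; ring
    rw [e1, A_succ_right c (by omega)]
    exact E_fl_of_inv c i _ _ ih f

lemma A_inv_of_inv (c : R) {n q i : ℤ} (u : K → R) (hu : ∀ f, u (fl i f) = u f) (f : K) :
    A c n q u (fl i f) = A c n q u f := by
  unfold A
  generalize (q - n).toNat = j
  induction j generalizing f with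
  | zero => exact hu f
  | succ j ih => exact E_fl_of_inv c i _ _ ih f

lemma E_eq_self (c : R) (hc : 2 * c = 1) (i : ℤ) (u : K → R) (f : K) (hu : u (fl i f) = u f) :
    E c i u f = u f := by
  simp only [E]
  rw [hu]
  linear_combination (u f) * hc

/-- `f` and `f'` agree outside `[p,q)` -/
def Off (p q : ℤ) (f f' : K) : Prop := ∀ i, (i < p ∨ q ≤ i) → f i = f' i

lemma Off.fl {p q i : ℤ} (h1 : p ≤ i) (h2 : i < q) {f f' : K} (h : Off p q f f') :
    Off p q (Lamp.fl i f) f' := by
  intro j hj
  rw [fl_ne (by omega)]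
  exact h j hj

/-- locality of averages -/
lemma A_congr (c : R) {n q : ℤ} (u v : K → R) (f : K) (h0 : n ≤ q)
    (h : ∀ f', Off n q f' f → u f' = v f') : A c n q u f = A c n q v f := by
  obtain ⟨k, rfl⟩ := Int.le.dest h0
  clear h0
  induction k generalizing f with
  | zero =>
    rw [show n + ((0 : ℕ) : ℤ) = n by simp, A_self, A_self]
    exact h f (fun _ _ => rfl)
  | succ k ih =>
    have e1 : n + ((k + 1 : ℕ) : ℤ) = (n + (k : ℤ)) + 1 := by push_cast; ring
    rw [e1] at h ⊢
    rw [A_succ_right c (by omega), A_succ_right c (by omega)]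
    simp only [E]
    rw [ih f, ih (fl (n + k) f)]
    · intro f' hf'
      apply h
      intro j hj
      have := hf' j (by omega)
      rw [this, fl_ne (by omega)]
    · intro f' hf'
      apply h
      intro j hj
      exact hf' j (by omega)

/-- if `u` is invariant in `[n,q)` around `f`, then averaging does nothing -/
lemma A_eq_self (c : R) (hc : 2 * c = 1) {n q : ℤ} (h0 : n ≤ q) (u : K → R)
    (h : ∀ i, n ≤ i → i < q → ∀ f, u (fl i f) = u f) : A c n q u = u := by
  obtain ⟨k, rfl⟩ := Int.le.dest h0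
  clear h0
  induction k with
  | zero => rw [show n + ((0 : ℕ) : ℤ) = n by simp, A_self]
  | succ k ih =>
    have e1 : n + ((k + 1 : ℕ) : ℤ) = (n + (k : ℤ)) + 1 := by push_cast; ring
    rw [e1] at h ⊢
    rw [A_succ_right c (by omega), ih (fun i h1 h2 => h i h1 (by omega))]
    funext f
    exact E_eq_self c hc _ u f (h _ (by omega) (by omega) f)

lemma A_const (c : R) (hc : 2 * c = 1) {n q : ℤ} (h0 : n ≤ q) (U : R) :
    A c n q (fun _ => U) = fun _ => U :=
  A_eq_self c hc h0 _ (fun _ _ _ _ => rfl)

lemma A_add (c : R) (n q : ℤ) (u v : K → R) :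
    A c n q (fun f => u f + v f) = fun f => A c n q u f + A c n q v f := by
  unfold A
  generalize (q - n).toNat = j
  induction j with
  | zero => rfl
  | succ j ih =>
    rw [av, ih]
    funext f
    simp only [av, E]
    ring

lemma A_smul (c : R) (n q : ℤ) (a : R) (u : K → R) :
    A c n q (fun f => a * u f) = fun f => a * A c n q u f := by
  unfold A
  generalize (q - n).toNat = j
  induction j with
  | zero => rfl
  | succ j ih =>
    rw [av, ih]
    funext f
    simp only [av, E]
    ring

/-- a sign outside the window factors out -/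
lemma A_sg (c : R) {n q i : ℤ} (h0 : n ≤ q) (hi : i < n ∨ q ≤ i) (u : K → R) :
    A c n q (fun f => sg R i f * u f) = fun f => sg R i f * A c n q u f := by
  obtain ⟨k, rfl⟩ := Int.le.dest h0
  clear h0
  induction k with
  | zero => rw [show n + ((0 : ℕ) : ℤ) = n by simp, A_self, A_self]
  | succ k ih =>
    have e1 : n + ((k + 1 : ℕ) : ℤ) = (n + (k : ℤ)) + 1 := by push_cast; ring
    rw [e1] at hi ⊢
    rw [A_succ_right c (by omega), ih (by omega), A_succ_right c (by omega)]
    funext f
    simp only [E]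
    rw [sg_fl_ne (by omega)]
    ring

/-- invariance along an interval -/
lemma inv_sum (u : K → R) (s : Finset ℤ) (h : ∀ i ∈ s, ∀ f, u (fl i f) = u f) (f : K) :
    u (f + ∑ i ∈ s, Finsupp.single i (1 : ZMod 2)) = u f := by
  induction s using Finset.induction_on generalizing f with
  | empty => simp
  | insert a s ha ih =>
    rw [Finset.sum_insert ha, ← add_assoc]
    rw [ih (fun i hi => h i (Finset.mem_insert_of_mem hi))]
    exact h a (Finset.mem_insert_self _ _) f

lemma sum_support (φ : K) : ∑ i ∈ φ.support, Finsupp.single i (1 : ZMod 2) = φ := by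
  conv_rhs => rw [← Finsupp.sum_single φ]
  unfold Finsupp.sum
  apply Finset.sum_congr rfl
  intro i hi
  have : φ i = 1 := by
    have h := Finsupp.mem_support_iff.mp hi
    generalize φ i = a at h
    revert a
    decide
  rw [this]

lemma inv_of_agree (u : K → R) (I : ℤ → Prop) (h : ∀ i, I i → ∀ f, u (fl i f) = u f)
    (f f' : K) (hff : ∀ i, ¬ I i → f i = f' i) : u f = u f' := by
  have e : f = f' + (f - f') := by abel
  rw [e, ← sum_support (f - f')]
  apply inv_sum
  intro i hi
  apply h
  by_contra hI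
  have := hff i hI
  rw [Finsupp.mem_support_iff] at hi
  apply hi
  rw [Finsupp.sub_apply, this, sub_self]

end

end Run7.h687.Lamp
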