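import Pool.Agent.Run7.h687.Surgery

set_option autoImplicit false

namespace Run7.h687.Lamp

section
variable {R : Type*} [CommRing R]

/-- restriction of lamps to below `q` -/
noncomputable def cut (q : ℤ) (f : K) : K := f.filter (fun i => i < q)

lemma cut_lt {q i : ℤ} (h : i < q) (f : K) : cut q f i = f i := by
  unfold cut
  rw [Finsupp.filter_apply_pos (fun i => i < q) f h]

lemma cut_ge {q i : ℤ} (h : q ≤ i) (f : K) : cut q f i = 0 := by
  unfold cut
  rw [Finsupp.filter_apply_neg (fun i => i < q) f (by omega)]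

lemma cut_fl_ge {q i : ℤ} (h : q ≤ i) (f : K) : cut q (fl i f) = cut q f := by
  ext j
  by_cases hj : j < q
  · rw [cut_lt hj, cut_lt hj, fl_ne (by omega)]
  · rw [cut_ge (by omega), cut_ge (by omega)]

lemma cut_fl_lt {q i : ℤ} (h : i < q) (f : K) : cut q (fl i f) = fl i (cut q f) := by
  ext j
  by_cases hj : j < q
  · rw [cut_lt hj]
    by_cases hij : j = i
    · subst hij
      rw [fl_same, fl_same, cut_lt hj]
    · rw [fl_ne hij, fl_ne hij, cut_lt hj]
  · rw [cut_ge (by omega), fl_ne (by omega), cut_ge (by omega)]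

/-- the class `C(b,q)` -/
def Cls (b q : ℤ) (f : K) : Prop := (∀ i, i < b → f i = 0) ∧ (∀ i, q ≤ i → f i = 0)

open Classical in
/-- the copying drive -/
noncomputable def cpy (c : R) (b q n : ℤ) (ux : K → R) (U0 : R) : K → R := fun f =>
  if (∀ i, i < b → f i = 0) then
    (if (∀ i, q ≤ i → f i = 0) then ux f else A c (n + 1) q ux (cut q f)) else U0

/-- Phase 2, one step. -/
lemma copy_step (c : R) (hc : 2 * c = 1) {SA SB : Set R} (hB : Sym SB)
    (hcl : Closed c SA SB) {U0 : R} (hU0 : U0 ∈ SB) {x : ℤ → K → R} (hx : IsX SA SB x)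
    {b q n : ℤ} (hbn : b ≤ n) (hnq : n < q) {t : K → R} (hg : Good c SA n t)
    (htx : ∀ f, Cls b q f → t f = x n f) :
    ∃ t' : K → R, Step SA SB n t t' ∧ Good c SA (n + 1) t' ∧
      ∀ f, Cls b q f → t' f = x (n + 1) f := by
  classical
  set ux : K → R := fun f => sg R n f * d n (x (n + 1)) f with hux
  set u := cpy c b q n ux U0 with hu
  set w := A c (n + 1) q ux with hw
  have hux_inv : ∀ f, ux (fl n f) = ux f := by
    intro f
    simp only [hux, d, fl_fl, sg_fl_same]
    ring
  have hxw : ∀ p, n < p → A c (n + 1) p ux = fun f => sg R n f * d n (A c (n + 1) p (x (n + 1))) f := by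
    intro p hp
    rw [hux, A_sg c (by omega) (by omega), d_A]
  -- class condition is insensitive to flips
  have hb_fl : ∀ i, n ≤ i → ∀ f : K, (∀ j, j < b → fl i f j = 0) ↔ (∀ j, j < b → f j = 0) := by
    intro i hi f
    constructor
    · intro h j hj
      rw [← h j hj, fl_ne (by omega)]
    · intro h j hj
      rw [fl_ne (by omega)]; exact h j hj
  have hq_fl : ∀ i, i < q → ∀ f : K, (∀ j, q ≤ j → fl i f j = 0) ↔ (∀ j, q ≤ j → f j = 0) := by
    intro i hi f
    constructor
    · intro h j hj
      rw [← h j hj, fl_ne (by omega)]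
    · intro h j hj
      rw [fl_ne (by omega)]; exact h j hj
  have w_inv : ∀ i, n ≤ i → i < q → ∀ f, w (fl i f) = w f := by
    intro i h1 h2 f
    by_cases h3 : i = n
    · subst h3
      exact A_inv_of_inv c _ hux_inv f
    · exact A_inv c (by omega) h2 _ f
  have hu_inv : ∀ f, u (fl n f) = u f := by
    intro f
    simp only [hu, cpy]
    by_cases h1 : ∀ j, j < b → f j = 0
    · rw [if_pos h1, if_pos ((hb_fl n le_rfl f).mpr h1)]
      by_cases h2 : ∀ j, q ≤ j → f j = 0
      · rw [if_pos h2, if_pos ((hq_fl n hnq f).mpr h2), hux_inv]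
      · rw [if_neg h2, if_neg (fun h => h2 ((hq_fl n hnq f).mp h)), cut_fl_lt hnq]
        exact w_inv n le_rfl hnq _
    · rw [if_neg h1, if_neg (fun h => h1 ((hb_fl n le_rfl f).mp h))]
  have hu_B : ∀ f, u f ∈ SB := by
    intro f
    simp only [hu, cpy]
    split_ifs
    · exact hB.sg n f ((hx n).b f)
    · rw [hxw q hnq]
      exact hB.sg n _ (up_of_isX c hcl hx n q hnq _)
    · exact hU0
  -- x as a nxt
  have hxn : x (n + 1) = nxt c n (x n) ux := by
    funext f
    simp only [nxt, E, hux, d]
    have h1 := (hx n).e f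
    have h2 := sg_mul_self (R := R) n f
    linear_combination (-(x (n+1) f)) * hc + c * h1
      + (-c) * (x (n+1) f - x (n+1) (fl n f)) * h2
  have hgood_x : ∀ m, n < m → ∀ f,
      d m (A c n m (x n)) f + c * (sg R n f * d m (A c (n + 1) m ux) f) ∈ SA := by
    intro m hm f
    have := good_of_isX c hcl hx (n + 1) m (by omega) f
    rw [hxn, d_A_nxt c hc hm] at this
    exact this
  refine ⟨nxt c n t u, nxt_step c hc hB hg hu_inv hu_B, nxt_good c hc ?_, ?_⟩
  · intro m hm f
    by_cases h1 : ∀ j, j < b → f j = 0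
    · by_cases hmq : q ≤ m
      · -- average over [n+1,q) of u near f is w ∘ cut
        have key : ∀ f' : K, (∀ j, j < b → f' j = 0) → A c (n + 1) q u f' = w (cut q f') := by
          intro f' h1'
          by_cases h2 : ∀ j, q ≤ j → f' j = 0
          · have e1 : A c (n + 1) q u f' = A c (n + 1) q ux f' := by
              apply A_congr c _ _ _ (by omega)
              intro f'' hf''
              simp only [hu, cpy]
              rw [if_pos, if_pos]
              · intro j hj
                rw [hf'' j (Or.inr hj)]; exact h2 j hj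
              · intro j hj
                rw [hf'' j (Or.inl (by omega))]; exact h1' j hj
            rw [e1]
            congr 1
            ext j
            by_cases hj : j < q
            · rw [cut_lt hj]
            · rw [cut_ge (by omega)]; exact h2 j (by omega)
          · have e1 : A c (n + 1) q u f' = A c (n + 1) q (fun f => w (cut q f)) f' := by
              apply A_congr c _ _ _ (by omega)
              intro f'' hf''
              simp only [hu, cpy]
              rw [if_pos, if_neg]
              · intro h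
                apply h2
                intro j hj
                rw [← hf'' j (Or.inr hj)]; exact h j hj
              · intro j hj
                rw [hf'' j (Or.inl (by omega))]; exact h1' j hj
            rw [e1, A_eq_self c hc (by omega)]
            intro i hi1 hi2 f
            rw [cut_fl_lt hi2]
            exact w_inv i (by omega) hi2 _
        have e2 : ∀ f' : K, (∀ j, j < b → f' j = 0) → A c (n + 1) m u f' = w (cut q f') := by
          intro f' h1'
          rw [A_trans c (show n + 1 ≤ q by omega) hmq]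
          have e3 : A c q m (A c (n + 1) q u) f' = A c q m (fun f => w (cut q f)) f' := by
            apply A_congr c _ _ _ hmq
            intro f'' hf''
            apply key
            intro j hj
            rw [hf'' j (Or.inl (by omega))]; exact h1' j hj
          rw [e3, A_eq_self c hc hmq]
          intro i hi1 hi2 f
          rw [cut_fl_ge hi1]
        have e4 : d m (A c (n + 1) m u) f = 0 := by
          simp only [d]
          rw [e2 f h1, e2 (fl m f) ((hb_fl m (by omega) f).mpr h1), cut_fl_ge hmq, sub_self]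
        rw [e4, mul_zero, mul_zero, add_zero]
        exact hg m (by omega) f
      · push Not at hmq
        by_cases h2 : ∀ j, q ≤ j → f j = 0
        · have e1 : ∀ f' : K, (∀ j, j < b → f' j = 0) → (∀ j, q ≤ j → f' j = 0) →
              A c (n + 1) m u f' = A c (n + 1) m ux f' := by
            intro f' ha hb'
            apply A_congr c _ _ _ (by omega)
            intro f'' hf''
            simp only [hu, cpy]
            rw [if_pos, if_pos]
            · intro j hj
              rw [hf'' j (Or.inr (by omega))]; exact hb' j hj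
            · intro j hj
              rw [hf'' j (Or.inl (by omega))]; exact ha j hj
          have e2 : ∀ f' : K, (∀ j, j < b → f' j = 0) → (∀ j, q ≤ j → f' j = 0) →
              A c n m t f' = A c n m (x n) f' := by
            intro f' ha hb'
            apply A_congr c _ _ _ (by omega)
            intro f'' hf''
            apply htx
            refine ⟨fun j hj => ?_, fun j hj => ?_⟩
            · rw [hf'' j (Or.inl (by omega))]; exact ha j hj
            · rw [hf'' j (Or.inr (by omega))]; exact hb' j hj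
          have h3 := (hb_fl m (by omega) f).mpr h1
          have h4 := (hq_fl m hmq f).mpr h2
          have := hgood_x m hm f
          simp only [d] at this ⊢
          rw [e1 f h1 h2, e1 _ h3 h4, e2 f h1 h2, e2 _ h3 h4]
          exact this
        · have e1 : ∀ f' : K, (∀ j, j < b → f' j = 0) → ¬ (∀ j, q ≤ j → f' j = 0) →
              A c (n + 1) m u f' = w (cut q f') := by
            intro f' ha hb'
            have e3 : A c (n + 1) m u f' = A c (n + 1) m (fun f => w (cut q f)) f' := by
              apply A_congr c _ _ _ (by omega)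
              intro f'' hf''
              simp only [hu, cpy]
              rw [if_pos, if_neg]
              · intro h
                apply hb'
                intro j hj
                rw [← hf'' j (Or.inr (by omega))]; exact h j hj
              · intro j hj
                rw [hf'' j (Or.inl (by omega))]; exact ha j hj
            rw [e3, A_eq_self c hc (by omega)]
            intro i hi1 hi2 f
            rw [cut_fl_lt (by omega)]
            exact w_inv i (by omega) (by omega) _
          have h3 := (hb_fl m (by omega) f).mpr h1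
          have h4 : ¬ (∀ j, q ≤ j → fl m f j = 0) := fun h => h2 ((hq_fl m hmq f).mp h)
          have e4 : d m (A c (n + 1) m u) f = 0 := by
            simp only [d]
            rw [e1 f h1 h2, e1 _ h3 h4, cut_fl_lt hmq, w_inv m (by omega) hmq, sub_self]
          rw [e4, mul_zero, mul_zero, add_zero]
          exact hg m (by omega) f
    · have e1 : ∀ f' : K, ¬ (∀ j, j < b → f' j = 0) → A c (n + 1) m u f' = U0 := by
        intro f' ha
        have e3 : A c (n + 1) m u f' = A c (n + 1) m (fun _ => U0) f' := by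
          apply A_congr c _ _ _ (by omega)
          intro f'' hf''
          simp only [hu, cpy]
          rw [if_neg]
          intro h
          apply ha
          intro j hj
          rw [← hf'' j (Or.inl (by omega))]; exact h j hj
        rw [e3, A_const c hc (by omega)]
      have h3 : ¬ (∀ j, j < b → fl m f j = 0) := fun h => h1 ((hb_fl m (by omega) f).mp h)
      have e4 : d m (A c (n + 1) m u) f = 0 := by
        simp only [d]
        rw [e1 f h1, e1 _ h3, sub_self]
      rw [e4, mul_zero, mul_zero, add_zero]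
      exact hg m (by omega) f
  · intro f hf
    have hf' : Cls b q (fl n f) := ⟨(hb_fl n le_rfl f).mpr hf.1, (hq_fl n hnq f).mpr hf.2⟩
    have e1 : u f = ux f := by
      simp only [hu, cpy]
      rw [if_pos hf.1, if_pos hf.2]
    conv_rhs => rw [hxn]
    simp only [nxt, E]
    rw [e1, htx f hf, htx _ hf']

/-- Phase 2 and 3: infinite continuation. -/
lemma continue_up (c : R) (hc : 2 * c = 1) {SA SB : Set R} (hB : Sym SB)
    (hcl : Closed c SA SB) {U0 : R} (hU0 : U0 ∈ SB) {x : ℤ → K → R} (hx : IsX SA SB x)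
    {b q : ℤ} {t : K → R} (hg : Good c SA b t)
    (htx : ∀ f, Cls b q f → t f = x b f) :
    ∃ s : ℤ → K → R, s b = t ∧ (∀ n, b ≤ n → Step SA SB n (s n) (s (n + 1))) ∧
      ∀ n, b ≤ n → n ≤ q → ∀ f, Cls b q f → s n f = x n f := by
  classical
  have step : ∀ k : ℕ, ∀ t : {t : K → R // Good c SA (b + k) t ∧
      (b + k ≤ q → ∀ f, Cls b q f → t f = x (b + k) f)},
      ∃ t' : {t : K → R // Good c SA (b + (k + 1 : ℕ)) t ∧
      (b + (k + 1 : ℕ) ≤ q → ∀ f, Cls b q f → t f = x (b + (k + 1 : ℕ)) f)},
      Step SA SB (b + k) t.1 t'.1 := by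
    rintro k ⟨t, hgt, htx'⟩
    have e : b + ((k + 1 : ℕ) : ℤ) = b + k + 1 := by push_cast; ring
    by_cases hk : b + (k : ℤ) < q
    · obtain ⟨t', h1, h2, h3⟩ := copy_step c hc hB hcl hU0 hx (by omega) hk hgt (htx' (by omega))
      refine ⟨⟨t', ?_, ?_⟩, h1⟩
      · rw [e]; exact h2
      · intro _; rw [e]; exact h3
    · obtain ⟨h1, h2⟩ := const_step c hc (SB := SB) hB hgt hU0
      refine ⟨⟨_, ?_, ?_⟩, h1⟩
      · rw [e]; exact h2
      · intro h; exfalso; omega
  choose F hF using step
  let t0 : {t : K → R // Good c SA (b + (0 : ℕ)) t ∧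
      (b + (0 : ℕ) ≤ q → ∀ f, Cls b q f → t f = x (b + (0 : ℕ)) f)} :=
    ⟨t, by simpa using hg, by intro _; simpa using htx⟩
  let S : (k : ℕ) → {t : K → R // Good c SA (b + k) t ∧
      (b + k ≤ q → ∀ f, Cls b q f → t f = x (b + k) f)} :=
    fun k => Nat.rec t0 (fun k t => F k t) k
  have hS : ∀ k : ℕ, Step SA SB (b + k) (S k).1 (S (k + 1)).1 := fun k => hF k (S k)
  obtain ⟨g, hg0, hgS, hgx⟩ : ∃ g : ℕ → K → R, g 0 = t ∧
      (∀ k : ℕ, Step SA SB (b + k) (g k) (g (k + 1))) ∧
      (∀ k : ℕ, b + k ≤ q → ∀ f, Cls b q f → g k f = x (b + k) f) :=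
    ⟨fun k => (S k).1, rfl, hS, fun k => (S k).2.2⟩
  refine ⟨fun n => g (n - b).toNat, ?_, ?_, ?_⟩
  · show g (b - b).toNat = t
    rw [sub_self, Int.toNat_zero, hg0]
  · intro n hn
    show Step SA SB n (g (n - b).toNat) (g (n + 1 - b).toNat)
    have h1 : (n + 1 - b).toNat = (n - b).toNat + 1 := by omega
    have h2 := hgS (n - b).toNat
    have h3 : b + ((n - b).toNat : ℤ) = n := by omega
    rw [h3] at h2
    rw [h1]
    exact h2
  · intro n hn hnq f hf
    show g (n - b).toNat f = x n f
    have h3 : b + ((n - b).toNat : ℤ) = n := by omega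
    have := hgx (n - b).toNat (by omega) f hf
    rw [h3] at this
    exact this

/-- The hypotheses on the pair `(SA, SB)` used for the surgery. -/
structure Nice (c : R) (SA SB : Set R) : Prop where
  two : 2 * c = 1
  symA : Sym SA
  symB : Sym SB
  cl : Closed c SA SB
  neB : SB.Nonempty
  conn : ∃ L, ∀ a ∈ SA, ∀ a' ∈ SA, PathN SA SB L a a'
  sums : ∃ N, ∀ v : R, SumN SB N v

/-- the window -/
def Win (r : ℕ) (n : ℤ) (f : K) : Prop :=
  -(r : ℤ) ≤ n ∧ n ≤ r ∧ Cls (-(r : ℤ)) r f

/-- finset of nodes -/
lemma exists_nodes (b q : ℤ) : ∃ S : Finset (ℤ × K), (∀ ν ∈ S, Node ν ∧ b ≤ ν.1) ∧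
    ∀ ν : ℤ × K, Node ν → b ≤ ν.1 → ν.1 < q → (∀ i, q ≤ i → ν.2 i = 0) → ν ∈ S := by
  classical
  let T : Set (ℤ × K) := {ν | Node ν ∧ b ≤ ν.1 ∧ ν.1 < q ∧ ∀ i, q ≤ i → ν.2 i = 0}
  have hT : T.Finite := by
    apply Set.Finite.subset (s := (Finset.Ico b q ×ˢ
      ((Finset.Ico b q).powerset.image (fun s => ∑ i ∈ s, Finsupp.single i (1 : ZMod 2))) :
        Finset (ℤ × K)))
    · exact Finset.finite_toSet _
    · rintro ⟨m, g⟩ ⟨h1, h2, h3, h4⟩
      simp only [Finset.coe_product, Set.mem_prod, Finset.mem_coe, Finset.mem_Ico,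
        Finset.mem_image, Finset.mem_powerset]
      refine ⟨⟨h2, h3⟩, g.support, ?_, sum_support g⟩
      intro i hi
      rw [Finset.mem_Ico]
      rw [Finsupp.mem_support_iff] at hi
      constructor
      · by_contra h
        exact hi (h1 i (by simp only at h2 ⊢; omega))
      · by_contra h
        exact hi (h4 i (by omega))
  refine ⟨hT.toFinset, ?_, ?_⟩
  · intro ν hν
    rw [Set.Finite.mem_toFinset] at hν
    exact ⟨hν.1, hν.2.1⟩
  · intro ν h1 h2 h3 h4
    rw [Set.Finite.mem_toFinset]
    exact ⟨h1, h2, h3, h4⟩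

/-- Surgery lemma. -/
theorem surgery {c : R} {SA SB : Set R} (H : Nice c SA SB) (r : ℕ) :
    ∃ M : ℕ, ∀ x y : ℤ → K → R, IsX SA SB x → IsX SA SB y →
      ∃ z : ℤ → K → R, IsX SA SB z ∧ (∀ n f, Win r n f → z n f = x n f) ∧
        ∀ n f, (n ≤ -(r : ℤ) - M ∨ ∃ i, i < -(r : ℤ) - M ∧ f i ≠ 0) → z n f = y n f := by
  classical
  obtain ⟨L, hL⟩ := H.conn
  obtain ⟨N, hN⟩ := H.sums
  obtain ⟨U0, hU0⟩ := H.neB
  set b : ℤ := -(r : ℤ) with hb
  set q : ℤ := (r : ℤ) + 1 with hq
  obtain ⟨S, hS1, hS2⟩ := exists_nodes b q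
  refine ⟨S.card * L + N, fun x y hx hy => ?_⟩
  set n0 : ℤ := b - ((S.card * L + N : ℕ) : ℤ) with hn0
  have hc := H.two
  have hgy : Good c SA n0 (y n0) := good_of_isX c H.cl hy n0
  have hgx : Good c SA b (x b) := good_of_isX c H.cl hx b
  have e0 : n0 + S.card * L + N = b := by rw [hn0]; push_cast; ring
  have hNN : (0 : ℤ) ≤ N := by positivity
  have hSL : (0 : ℤ) ≤ S.card * L := by positivity
  obtain ⟨t1, hc1, hg1, h1⟩ := run_nodes c hc H.symA H.symB L hL (fun ν => nd c b (x b) ν) S b
    (fun ν hν => ⟨(hS1 ν hν).1, (hS1 ν hν).2, hgx ν.1 (hS1 ν hν).2 ν.2⟩) n0 (y n0) (by omega) hgy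
  obtain ⟨t2, hc2, hg2, h2, he2⟩ := run_e c hc H.symA H.symB b N (n0 + S.card * L) t1
    (2 * (A c b q (x b) 0 - A c (n0 + S.card * L) q t1 0)) (by omega) hg1 (hN _)
  rw [e0] at hc2 hg2 h2 he2
  have h3 : A c b q t2 0 = A c b q (x b) 0 := by
    rw [he2 q (by omega)]
    linear_combination (A c b q (x b) 0 - A c (n0 + S.card * L) q t1 0) * hc
  have h4 : ∀ ν : ℤ × K, Node ν → b ≤ ν.1 → ν.1 < q → (∀ i, q ≤ i → ν.2 i = 0) →
      nd c b t2 ν = nd c b (x b) ν := by
    intro ν a1 a2 a3 a4
    rw [h2 ν a1 a2]
    exact h1 ν (hS2 ν a1 a2 a3 a4)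
  have h5 := haar_unique c hc (show b ≤ q by omega) t2 (x b) h4 h3
  have hc3 : Conn SA SB n0 b (y n0) t2 := Conn.trans (by omega) (by omega) hc1 hc2
  obtain ⟨s1, hs1, hs1', hs1''⟩ := hc3
  obtain ⟨s2, hs2, hs2', hs2''⟩ := continue_up c hc H.symB H.cl hU0 hx hg2 (q := q)
    (fun f hf => h5 f (fun i hi => hi.elim (hf.1 i) (hf.2 i)))
  set s : ℤ → K → R := fun n => if n ≤ b then s1 n else s2 n with hs
  have hsn0 : s n0 = y n0 := by
    simp only [hs]; rw [if_pos (by omega)]; exact hs1
  have hsS : ∀ k, n0 ≤ k → Step SA SB k (s k) (s (k + 1)) := by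
    intro k hk
    simp only [hs]
    by_cases h : k < b
    · rw [if_pos (by omega), if_pos (by omega)]
      exact hs1'' k hk h
    · by_cases h' : k = b
      · subst h'
        rw [if_pos le_rfl, if_neg (by omega), hs1', ← hs2]
        exact hs2' _ le_rfl
      · rw [if_neg (by omega), if_neg (by omega)]
        exact hs2' k (by omega)
  have hsx : ∀ n, b ≤ n → n ≤ q → ∀ f, Cls b q f → s n f = x n f := by
    intro n hn1 hn2 f hf
    simp only [hs]
    by_cases h : n = b
    · subst h
      rw [if_pos le_rfl, hs1', ← hs2]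
      exact hs2'' _ le_rfl hn2 f hf
    · rw [if_neg (by omega)]
      exact hs2'' n hn1 hn2 f hf
  refine ⟨fun n f => if n0 < n ∧ (∀ i, i < n0 → f i = 0) then s n f else y n f, ?_, ?_, ?_⟩
  · intro n
    have hfl : ∀ f : K, n0 ≤ n → ((∀ i, i < n0 → fl n f i = 0) ↔ (∀ i, i < n0 → f i = 0)) := by
      intro f hn
      constructor
      · intro h j hj
        rw [← h j hj, fl_ne (by omega)]
      · intro h j hj
        rw [fl_ne (by omega)]; exact h j hj
    -- at each f, the pair of levels comes from `s` or from `y`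
    have alt : ∀ f : K,
        ((if n0 < n ∧ (∀ i, i < n0 → f i = 0) then s n f else y n f) = s n f ∧
         (if n0 < n ∧ (∀ i, i < n0 → fl n f i = 0) then s n (fl n f) else y n (fl n f))
            = s n (fl n f) ∧
         (if n0 < n + 1 ∧ (∀ i, i < n0 → f i = 0) then s (n + 1) f else y (n + 1) f)
            = s (n + 1) f ∧
         (if n0 < n + 1 ∧ (∀ i, i < n0 → fl n f i = 0) then s (n + 1) (fl n f)
            else y (n + 1) (fl n f)) = s (n + 1) (fl n f) ∧ n0 ≤ n) ∨
        ((if n0 < n ∧ (∀ i, i < n0 → f i = 0) then s n f else y n f) = y n f ∧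
         (if n0 < n ∧ (∀ i, i < n0 → fl n f i = 0) then s n (fl n f) else y n (fl n f))
            = y n (fl n f) ∧
         (if n0 < n + 1 ∧ (∀ i, i < n0 → f i = 0) then s (n + 1) f else y (n + 1) f)
            = y (n + 1) f ∧
         (if n0 < n + 1 ∧ (∀ i, i < n0 → fl n f i = 0) then s (n + 1) (fl n f)
            else y (n + 1) (fl n f)) = y (n + 1) (fl n f)) := by
      intro f
      by_cases hn : n0 ≤ n
      · by_cases hf : ∀ i, i < n0 → f i = 0
        · left
          have hf' := (hfl f hn).mpr hf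
          by_cases hn' : n0 = n
          · subst hn'
            refine ⟨?_, ?_, ?_, ?_, le_rfl⟩
            · rw [if_neg (by omega), hsn0]
            · rw [if_neg (by omega), hsn0]
            · rw [if_pos ⟨by omega, hf⟩]
            · rw [if_pos ⟨by omega, hf'⟩]
          · have h3 : n0 < n := by omega
            refine ⟨?_, ?_, ?_, ?_, hn⟩
            · rw [if_pos ⟨h3, hf⟩]
            · rw [if_pos ⟨h3, hf'⟩]
            · rw [if_pos ⟨by omega, hf⟩]
            · rw [if_pos ⟨by omega, hf'⟩]
        · right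
          have hf' : ¬ ∀ i, i < n0 → fl n f i = 0 := fun h => hf ((hfl f hn).mp h)
          refine ⟨?_, ?_, ?_, ?_⟩
          · rw [if_neg (fun h => hf h.2)]
          · rw [if_neg (fun h => hf' h.2)]
          · rw [if_neg (fun h => hf h.2)]
          · rw [if_neg (fun h => hf' h.2)]
      · right
        refine ⟨?_, ?_, ?_, ?_⟩
        · rw [if_neg (fun h => hn (by omega))]
        · rw [if_neg (fun h => hn (by omega))]
        · rw [if_neg (fun h => hn (by omega))]
        · rw [if_neg (fun h => hn (by omega))]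
    refine ⟨fun f => ?_, fun f => ?_, fun f => ?_⟩
    · show (if _ then _ else _) + (if _ then _ else _) = (if _ then _ else _) + (if _ then _ else _)
      rcases alt f with ⟨a1, a2, a3, a4, hn⟩ | ⟨a1, a2, a3, a4⟩
      · rw [a1, a2, a3, a4]; exact (hsS n hn).e f
      · rw [a1, a2, a3, a4]; exact (hy n).e f
    · show (if _ then _ else _) - (if _ then _ else _) ∈ SA
      rcases alt f with ⟨a1, a2, a3, a4, hn⟩ | ⟨a1, a2, a3, a4⟩
      · rw [a1, a2]; exact (hsS n hn).a f
      · rw [a1, a2]; exact (hy n).a f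
    · show (if _ then _ else _) - (if _ then _ else _) ∈ SB
      rcases alt f with ⟨a1, a2, a3, a4, hn⟩ | ⟨a1, a2, a3, a4⟩
      · rw [a3, a4]; exact (hsS n hn).b f
      · rw [a3, a4]; exact (hy n).b f
  · rintro n f ⟨h1, h2, h3, h4⟩
    have hcls : Cls b q f := ⟨h3, fun i hi => h4 i (by omega)⟩
    simp only
    by_cases hn : n0 < n
    · rw [if_pos ⟨hn, fun i hi => h3 i (by omega)⟩]
      exact hsx n h1 (by omega) f hcls
    · have : n = n0 := by omega
      rw [if_neg (fun h => hn h.1)]
      rw [this, ← hsn0]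
      exact hsx n0 (by omega) (by omega) f hcls
  · intro n f h
    simp only
    rw [if_neg]
    rintro ⟨a1, a2⟩
    rcases h with h | ⟨i, hi, hfi⟩
    · push_cast at hn0 h
      omega
    · apply hfi
      apply a2
      push_cast at hn0 hi
      omega

end

end Run7.h687.Lamp
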