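import Pool.Agent.Run7.h687.Glue

set_option autoImplicit false

namespace Run7.h687.Lamp

/-- shift of lamps -/
noncomputable def sh (k : ℤ) (f : K) : K := Finsupp.equivMapDomain (Equiv.addRight k) f

lemma sh_apply (k : ℤ) (f : K) (i : ℤ) : sh k f i = f (i - k) := by
  unfold sh
  rw [Finsupp.equivMapDomain_apply]
  simp [sub_eq_add_neg]

lemma sh_add (k : ℤ) (f g : K) : sh k (f + g) = sh k f + sh k g := by
  ext i
  simp [sh_apply]

lemma sh_neg (k : ℤ) (f : K) : sh k (-f) = - sh k f := by
  ext i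
  simp [sh_apply]

lemma sh_zero (k : ℤ) : sh k 0 = 0 := by
  ext i
  simp [sh_apply]

lemma sh_zero' (f : K) : sh 0 f = f := by
  ext i
  simp [sh_apply]

lemma sh_sh (k l : ℤ) (f : K) : sh k (sh l f) = sh (k + l) f := by
  ext i
  simp only [sh_apply]
  congr 1
  ring

lemma sh_fl (k i : ℤ) (f : K) : sh k (fl i f) = fl (i + k) (sh k f) := by
  ext j
  simp only [sh_apply]
  by_cases h : j - k = i
  · have h' : j = i + k := by omega
    rw [h, h', fl_same, fl_same, sh_apply]
    simp
  · rw [fl_ne h, fl_ne (by omega), sh_apply]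

/-- group law on `ℤ × K` -/
noncomputable def lm (q p : ℤ × K) : ℤ × K := (q.1 + p.1, q.2 + sh q.1 p.2)

/-- inverse -/
noncomputable def li (q : ℤ × K) : ℤ × K := (-q.1, -sh (-q.1) q.2)

lemma lm_assoc (a b c : ℤ × K) : lm (lm a b) c = lm a (lm b c) := by
  unfold lm
  simp only [sh_add, sh_sh]
  ext
  · simp only; ring
  · simp only [add_assoc]

lemma lm_zero (p : ℤ × K) : lm p (0, 0) = p := by
  unfold lm
  simp [sh_zero]

lemma zero_lm (p : ℤ × K) : lm (0, 0) p = p := by
  unfold lm
  simp [sh_zero']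

lemma li_lm (q : ℤ × K) : lm (li q) q = (0, 0) := by
  unfold lm li
  simp

lemma lm_li (q : ℤ × K) : lm q (li q) = (0, 0) := by
  unfold lm li
  simp [sh_neg, sh_sh, sh_zero']

section
variable {R : Type*} [CommRing R]

/-- translate -/
noncomputable def tr (q : ℤ × K) (z : ℤ → K → R) : ℤ → K → R :=
  fun n f => z (lm q (n, f)).1 (lm q (n, f)).2

lemma tr_isX {SA SB : Set R} {z : ℤ → K → R} (hz : IsX SA SB z) (q : ℤ × K) :
    IsX SA SB (tr q z) := by
  intro n
  have e1 : ∀ (m : ℤ) (f : K), tr q z m f = z (q.1 + m) (q.2 + sh q.1 f) := fun m f => rfl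
  have e2 : ∀ f : K, q.2 + sh q.1 (fl n f) = fl (q.1 + n) (q.2 + sh q.1 f) := by
    intro f
    rw [sh_fl]
    unfold fl
    rw [add_comm n q.1]
    abel
  have e3 : q.1 + (n + 1) = q.1 + n + 1 := by ring
  refine ⟨fun f => ?_, fun f => ?_, fun f => ?_⟩
  · simp only [e1, e2, e3]
    exact (hz (q.1 + n)).e _
  · simp only [e1, e2]
    exact (hz (q.1 + n)).a _
  · simp only [e1, e2, e3]
    exact (hz (q.1 + n)).b _

/-- the reflection `i ↦ -1 - i` -/
def refl1 : ℤ ≃ ℤ where
  toFun i := -1 - i
  invFun i := -1 - i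
  left_inv i := by ring
  right_inv i := by ring

/-- reflected lamps -/
noncomputable def rev (f : K) : K := Finsupp.equivMapDomain refl1 f

lemma rev_apply (f : K) (i : ℤ) : rev f i = f (-1 - i) := by
  unfold rev
  rw [Finsupp.equivMapDomain_apply]
  rfl

lemma rev_rev (f : K) : rev (rev f) = f := by
  ext i
  simp [rev_apply]

lemma rev_fl (i : ℤ) (f : K) : rev (fl i f) = fl (-1 - i) (rev f) := by
  ext j
  rw [rev_apply]
  by_cases h : -1 - j = i
  · have h' : j = -1 - i := by omega
    rw [h, h', fl_same, fl_same, rev_apply]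
    simp
  · rw [fl_ne h, fl_ne (by omega), rev_apply]

/-- mirror configuration -/
noncomputable def mir (z : ℤ → K → R) : ℤ → K → R := fun n f => z (-n) (rev f)

lemma mir_mir (z : ℤ → K → R) : mir (mir z) = z := by
  funext n f
  simp [mir, rev_rev]

lemma mir_isX {SA SB : Set R} {z : ℤ → K → R} (hz : IsX SA SB z) : IsX SB SA (mir z) := by
  intro n
  have e3 : -n = -(n + 1) + 1 := by ring
  have e4 : -1 - n = -(n + 1) := by ring
  refine ⟨fun f => ?_, fun f => ?_, fun f => ?_⟩
  · simp only [mir, rev_fl, e4]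
    have := (hz (-(n + 1))).e (rev f)
    rw [← e3] at this
    exact this.symm
  · simp only [mir, rev_fl, e4]
    have := (hz (-(n + 1))).b (rev f)
    rw [← e3] at this
    exact this
  · simp only [mir, rev_fl, e4]
    exact (hz (-(n + 1))).a (rev f)

/-- Mirror surgery. -/
theorem surgery' {c : R} {SA SB : Set R} (H : Nice c SB SA) (r : ℕ) :
    ∃ M : ℕ, ∀ x y : ℤ → K → R, IsX SA SB x → IsX SA SB y →
      ∃ z : ℤ → K → R, IsX SA SB z ∧ (∀ n f, Win r n f → z n f = x n f) ∧
        ∀ n f, ((r : ℤ) + M ≤ n ∨ ∃ i, (r : ℤ) + M ≤ i ∧ f i ≠ 0) → z n f = y n f := by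
  obtain ⟨M, hM⟩ := surgery H r
  refine ⟨M, fun x y hx hy => ?_⟩
  obtain ⟨z, hz, h1, h2⟩ := hM (mir x) (mir y) (mir_isX hx) (mir_isX hy)
  refine ⟨mir z, mir_isX hz, fun n f hw => ?_, fun n f h => ?_⟩
  · have : mir z n f = z (-n) (rev f) := rfl
    rw [this, h1]
    · simp [mir, rev_rev]
    · obtain ⟨a1, a2, a3, a4⟩ := hw
      refine ⟨by omega, by omega, fun i hi => ?_, fun i hi => ?_⟩
      · rw [rev_apply]; exact a4 _ (by omega)
      · rw [rev_apply]; exact a3 _ (by omega)
  · have : mir z n f = z (-n) (rev f) := rfl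
    rw [this, h2]
    · simp [mir, rev_rev]
    · rcases h with h | ⟨i, hi, hfi⟩
      · left; omega
      · right
        refine ⟨-1 - i, by omega, ?_⟩
        rw [rev_apply]
        simpa using hfi

/-- finite sets of positions -/
lemma finite_box (a : ℤ) : {q : ℤ × K | -a ≤ q.1 ∧ q.1 ≤ a ∧ ∀ i, q.2 i ≠ 0 → -a ≤ i ∧ i ≤ a}.Finite := by
  classical
  apply Set.Finite.subset (s := (Finset.Icc (-a) a ×ˢ
      ((Finset.Icc (-a) a).powerset.image (fun s => ∑ i ∈ s, Finsupp.single i (1 : ZMod 2))) :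
        Finset (ℤ × K)))
  · exact Finset.finite_toSet _
  · rintro ⟨m, g⟩ ⟨h1, h2, h3⟩
    simp only [Finset.coe_product, Set.mem_prod, Finset.mem_coe, Finset.mem_Icc,
      Finset.mem_image, Finset.mem_powerset]
    refine ⟨⟨h1, h2⟩, g.support, ?_, sum_support g⟩
    intro i hi
    rw [Finset.mem_Icc]
    rw [Finsupp.mem_support_iff] at hi
    exact h3 i hi

/-- Mixing at the level of positions. -/
theorem mixing_pos {c : R} {SA SB : Set R} (H : Nice c SA SB) (H' : Nice c SB SA) (r : ℕ) :
    ∃ C : Set (ℤ × K), C.Finite ∧ ∀ q, q ∉ C → ∀ x y : ℤ → K → R, IsX SA SB x → IsX SA SB y →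
      ∃ z : ℤ → K → R, IsX SA SB z ∧ (∀ n f, Win r n f → z n f = x n f) ∧
        (∀ n f, Win r n f → tr q z n f = y n f) := by
  obtain ⟨M1, h1⟩ := surgery H r
  obtain ⟨M2, h2⟩ := surgery' (SA := SA) (SB := SB) H' r
  set a : ℤ := 3 * r + 2 * M1 + 2 * M2 + 1 with ha
  refine ⟨_, finite_box (2 * a), fun q hq x y hx hy => ?_⟩
  have hback : ∀ (z : ℤ → K → R) n f, z (lm q (n, f)).1 (lm q (n, f)).2 = tr (li q) y (lm q (n, f)).1
      (lm q (n, f)).2 → tr q z n f = y n f := by
    intro z n f h
    unfold tr at h ⊢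
    rw [h]
    have : lm (li q) ((lm q (n, f)).1, (lm q (n, f)).2) = (n, f) := by
      rw [Prod.mk.eta, ← lm_assoc, li_lm, zero_lm]
    rw [this]
  have hy' := tr_isX hy (li q)
  -- dichotomy
  have hdich : (∀ n f, Win r n f → ((lm q (n, f)).1 ≤ -(r : ℤ) - M1 ∨
        ∃ i, i < -(r : ℤ) - M1 ∧ (lm q (n, f)).2 i ≠ 0)) ∨
      (∀ n f, Win r n f → ((r : ℤ) + M2 ≤ (lm q (n, f)).1 ∨
        ∃ i, (r : ℤ) + M2 ≤ i ∧ (lm q (n, f)).2 i ≠ 0)) := by
    by_cases hk1 : q.1 ≤ -a
    · left
      rintro n f ⟨b1, b2, b3, b4⟩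
      left
      show q.1 + n ≤ _
      omega
    · by_cases hk2 : a ≤ q.1
      · right
        rintro n f ⟨b1, b2, b3, b4⟩
        left
        show _ ≤ q.1 + n
        omega
      · have hex : ∃ i, q.2 i ≠ 0 ∧ (i < -(2 * a) ∨ 2 * a < i) := by
          by_contra hcon
          push Not at hcon
          apply hq
          refine ⟨by omega, by omega, fun i hi => ?_⟩
          have := hcon i hi
          omega
        obtain ⟨i, hi, hi'⟩ := hex
        rcases hi' with hi' | hi'
        · left
          rintro n f ⟨b1, b2, b3, b4⟩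
          right
          refine ⟨i, by omega, ?_⟩
          show (q.2 + sh q.1 f) i ≠ 0
          rw [Finsupp.add_apply, sh_apply, b3 (i - q.1) (by omega), add_zero]
          exact hi
        · right
          rintro n f ⟨b1, b2, b3, b4⟩
          right
          refine ⟨i, by omega, ?_⟩
          show (q.2 + sh q.1 f) i ≠ 0
          rw [Finsupp.add_apply, sh_apply, b4 (i - q.1) (by omega), add_zero]
          exact hi
  rcases hdich with hd | hd
  · obtain ⟨z, hz, hzx, hzy⟩ := h1 x (tr (li q) y) hx hy'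
    exact ⟨z, hz, hzx, fun n f hw => hback z n f (hzy _ _ (hd n f hw))⟩
  · obtain ⟨z, hz, hzx, hzy⟩ := h2 x (tr (li q) y) hx hy'
    exact ⟨z, hz, hzx, fun n f hw => hback z n f (hzy _ _ (hd n f hw))⟩

/-- Nonemptiness: the explicit rigid configuration. -/
theorem exists_isX {c : R} (hc : 2 * c = 1) {SA SB : Set R} (hA : Sym SA) (hB : Sym SB)
    (hAn : SA.Nonempty) (hBn : SB.Nonempty) : ∃ z : ℤ → K → R, IsX SA SB z := by
  classical
  obtain ⟨a, ha⟩ := hAn
  obtain ⟨b, hb⟩ := hBn
  let g : ℤ → ℤ → R := fun n i => if i < n then b else a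
  let z : ℤ → K → R := fun n f => (n : R) * (c * (b - a)) - ∑ i ∈ f.support, g n i
  have hfl : ∀ (n i : ℤ) (f : K), ∑ j ∈ (fl i f).support, g n j =
      ∑ j ∈ f.support, g n j + sg R i f * g n i := by
    intro n i f
    have hs : ∀ f : K, f i = 0 → ∑ j ∈ (fl i f).support, g n j =
        ∑ j ∈ f.support, g n j + g n i := by
      intro f hf
      have : (fl i f).support = insert i f.support := by
        ext j
        simp only [Finsupp.mem_support_iff, Finset.mem_insert]
        by_cases hj : j = i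
        · subst hj
          simp only [true_or, iff_true]
          rw [fl_same, hf]
          decide
        · rw [fl_ne hj]
          simp [hj]
      rw [this, Finset.sum_insert (by simp [hf])]
      ring
    unfold sg
    by_cases h : f i = 0
    · rw [if_pos h, hs f h, one_mul]
    · rw [if_neg h]
      have h2 : (fl i f) i = 0 := by
        rw [fl_same_zero]; exact h
      have := hs (fl i f) h2
      rw [fl_fl] at this
      rw [this]
      ring
  refine ⟨z, fun n => ⟨fun f => ?_, fun f => ?_, fun f => ?_⟩⟩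
  · show ((n + 1 : ℤ) : R) * (c * (b - a)) - ∑ i ∈ f.support, g (n + 1) i +
      (((n + 1 : ℤ) : R) * (c * (b - a)) - ∑ i ∈ (fl n f).support, g (n + 1) i) =
      (n : R) * (c * (b - a)) - ∑ i ∈ f.support, g n i +
      ((n : R) * (c * (b - a)) - ∑ i ∈ (fl n f).support, g n i)
    -- compare sums at levels n and n+1
    have hlev : ∀ f : K, f n = 0 → ∑ i ∈ f.support, g (n + 1) i = ∑ i ∈ f.support, g n i := by
      intro f hf
      apply Finset.sum_congr rfl
      intro i hi
      have : i ≠ n := by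
        rintro rfl
        exact (Finsupp.mem_support_iff.mp hi) hf
      simp only [g]
      by_cases h : i < n
      · rw [if_pos h, if_pos (by omega)]
      · rw [if_neg h, if_neg (by omega)]
    have gn : g n n = a := by simp [g]
    have gn' : g (n + 1) n = b := by simp [g]
    by_cases h : f n = 0
    · rw [hfl, hfl, hlev f h, gn, gn']
      unfold sg
      rw [if_pos h]
      push_cast
      linear_combination (b - a) * hc
    · have h2 : (fl n f) n = 0 := by
        rw [fl_same_zero]; exact h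
      have e1 := hfl n n (fl n f)
      have e2 := hfl (n + 1) n (fl n f)
      rw [fl_fl] at e1 e2
      rw [e1, e2, hlev _ h2, gn, gn']
      unfold sg
      rw [if_pos h2]
      push_cast
      linear_combination (b - a) * hc
  · show (n : R) * (c * (b - a)) - ∑ i ∈ f.support, g n i -
      ((n : R) * (c * (b - a)) - ∑ i ∈ (fl n f).support, g n i) ∈ SA
    rw [hfl]
    have gn : g n n = a := by simp [g]
    rw [gn]
    have := hA.sg n f ha
    convert this using 1
    ring
  · show ((n + 1 : ℤ) : R) * (c * (b - a)) - ∑ i ∈ f.support, g (n + 1) i -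
      (((n + 1 : ℤ) : R) * (c * (b - a)) - ∑ i ∈ (fl n f).support, g (n + 1) i) ∈ SB
    rw [hfl]
    have gn' : g (n + 1) n = b := by simp [g]
    rw [gn']
    have := hB.sg n f hb
    convert this using 1
    ring

end

end Run7.h687.Lamp
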