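import Pool.Agent.Run7.h687.Mix

set_option autoImplicit false

namespace Run7.h687.Lamp

/-- A rule of finite type on `ℤ × K` with alphabet `Q`. -/
structure Sft (Q : Type*) where
  F0 : Finset (ℤ × K)
  loc : ((ℤ × K) → Q) → Prop
  loc_congr : ∀ a b, (∀ p ∈ F0, a p = b p) → loc a → loc b

/-- the subshift -/
def Sft.X {Q : Type*} (S : Sft Q) : Set ((ℤ × K) → Q) := {z | ∀ q, S.loc (fun p => z (lm q p))}

/-- mixing -/
def Mixing {Q : Type*} (X : Set ((ℤ × K) → Q)) : Prop :=
  ∀ W : Finset (ℤ × K), ∃ C : Set (ℤ × K), C.Finite ∧ ∀ q, q ∉ C → ∀ x ∈ X, ∀ y ∈ X,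
    ∃ z ∈ X, (∀ p ∈ W, z p = x p) ∧ ∀ p ∈ W, z (lm q p) = y p

/-- product -/
def Sft.prod {Q1 Q2 : Type*} (S1 : Sft Q1) (S2 : Sft Q2) : Sft (Q1 × Q2) where
  F0 := by classical exact S1.F0 ∪ S2.F0
  loc a := S1.loc (fun p => (a p).1) ∧ S2.loc (fun p => (a p).2)
  loc_congr a b h := by
    classical
    rintro ⟨h1, h2⟩
    exact ⟨S1.loc_congr _ _ (fun p hp => by rw [h p (Finset.mem_union_left _ hp)]) h1,
      S2.loc_congr _ _ (fun p hp => by rw [h p (Finset.mem_union_right _ hp)]) h2⟩

lemma Sft.mem_prod {Q1 Q2 : Type*} (S1 : Sft Q1) (S2 : Sft Q2) (z : (ℤ × K) → Q1 × Q2) :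
    z ∈ (S1.prod S2).X ↔ (fun p => (z p).1) ∈ S1.X ∧ (fun p => (z p).2) ∈ S2.X :=
  forall_and

lemma Sft.prod_nonempty {Q1 Q2 : Type*} {S1 : Sft Q1} {S2 : Sft Q2} (h1 : S1.X.Nonempty)
    (h2 : S2.X.Nonempty) : (S1.prod S2).X.Nonempty := by
  obtain ⟨z1, hz1⟩ := h1
  obtain ⟨z2, hz2⟩ := h2
  exact ⟨fun p => (z1 p, z2 p), (Sft.mem_prod S1 S2 _).mpr ⟨hz1, hz2⟩⟩

lemma Sft.prod_mixing {Q1 Q2 : Type*} {S1 : Sft Q1} {S2 : Sft Q2} (h1 : Mixing S1.X)
    (h2 : Mixing S2.X) : Mixing (S1.prod S2).X := by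
  intro W
  obtain ⟨C1, hC1, h1⟩ := h1 W
  obtain ⟨C2, hC2, h2⟩ := h2 W
  refine ⟨C1 ∪ C2, hC1.union hC2, fun q hq x hx y hy => ?_⟩
  rw [Sft.mem_prod] at hx hy
  obtain ⟨z1, hz1, a1, b1⟩ := h1 q (fun h => hq (Or.inl h)) _ hx.1 _ hy.1
  obtain ⟨z2, hz2, a2, b2⟩ := h2 q (fun h => hq (Or.inr h)) _ hx.2 _ hy.2
  refine ⟨fun p => (z1 p, z2 p), (Sft.mem_prod S1 S2 _).mpr ⟨hz1, hz2⟩, fun p hp => ?_,
    fun p hp => ?_⟩
  · exact Prod.ext (a1 p hp) (a2 p hp)
  · exact Prod.ext (b1 p hp) (b2 p hp)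

/-! ### The tetrahedral system as an `Sft` -/

section
variable {R : Type*} [CommRing R]

/-- the tetrahedral rule -/
noncomputable def tet (SA SB : Set R) : Sft R where
  F0 := by classical exact {(0, 0), (0, Finsupp.single 0 1), (1, 0), (1, Finsupp.single 0 1)}
  loc a := a (1, 0) + a (1, Finsupp.single 0 1) = a (0, 0) + a (0, Finsupp.single 0 1) ∧
    a (0, 0) - a (0, Finsupp.single 0 1) ∈ SA ∧ a (1, 0) - a (1, Finsupp.single 0 1) ∈ SB
  loc_congr a b h := by
    classical
    rw [h (0, 0) (by simp), h (0, Finsupp.single 0 1) (by simp), h (1, 0) (by simp),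
      h (1, Finsupp.single 0 1) (by simp)]
    exact id

lemma sh_single (k : ℤ) : sh k (Finsupp.single 0 1 : K) = Finsupp.single k 1 := by
  have := sh_fl k 0 0
  unfold fl at this
  simpa [sh_zero] using this

lemma tet_iff (SA SB : Set R) (z : (ℤ × K) → R) :
    z ∈ (tet SA SB).X ↔ IsX SA SB (fun n f => z (n, f)) := by
  have e : ∀ (n : ℤ) (f : K), lm (n, f) (0, 0) = (n, f) ∧
      lm (n, f) (0, Finsupp.single 0 1) = (n, fl n f) ∧
      lm (n, f) (1, 0) = (n + 1, f) ∧ lm (n, f) (1, Finsupp.single 0 1) = (n + 1, fl n f) := by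
    intro n f
    unfold lm fl
    simp [sh_zero, sh_single]
  constructor
  · intro h n
    have h' : ∀ f, _ := fun f => h (n, f)
    refine ⟨fun f => ?_, fun f => ?_, fun f => ?_⟩
    · have := (h' f).1
      simp only [(e n f).1, (e n f).2.1, (e n f).2.2.1, (e n f).2.2.2] at this
      exact this
    · have := (h' f).2.1
      simp only [(e n f).1, (e n f).2.1] at this
      exact this
    · have := (h' f).2.2
      simp only [(e n f).2.2.1, (e n f).2.2.2] at this
      exact this
  · rintro h ⟨n, f⟩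
    refine ⟨?_, ?_, ?_⟩
    · simp only [(e n f).1, (e n f).2.1, (e n f).2.2.1, (e n f).2.2.2]
      exact (h n).e f
    · simp only [(e n f).1, (e n f).2.1]
      exact (h n).a f
    · simp only [(e n f).2.2.1, (e n f).2.2.2]
      exact (h n).b f

lemma exists_win (W : Finset (ℤ × K)) : ∃ r : ℕ, ∀ p ∈ W, Win r p.1 p.2 := by
  classical
  induction W using Finset.induction_on with
  | empty => exact ⟨0, fun p hp => absurd hp (Finset.notMem_empty _)⟩
  | insert a W ha ih =>
    obtain ⟨r, hr⟩ := ih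
    obtain ⟨r', hr'⟩ : ∃ r' : ℕ, ∀ i ∈ a.2.support, i.natAbs < r' := by
      refine ⟨(a.2.support.sup Int.natAbs) + 1, fun i hi => ?_⟩
      have := Finset.le_sup (f := Int.natAbs) hi
      omega
    refine ⟨r + r' + a.1.natAbs, fun p hp => ?_⟩
    rcases Finset.mem_insert.mp hp with h | h
    · subst h
      refine ⟨by omega, by omega, fun i hi => ?_, fun i hi => ?_⟩
      · by_contra hne
        have := hr' i (Finsupp.mem_support_iff.mpr hne)
        omega
      · by_contra hne
        have := hr' i (Finsupp.mem_support_iff.mpr hne)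
        omega
    · obtain ⟨b1, b2, b3, b4⟩ := hr p h
      exact ⟨by omega, by omega, fun i hi => b3 i (by omega), fun i hi => b4 i (by omega)⟩

theorem tet_mixing {c : R} {SA SB : Set R} (H : Nice c SA SB) (H' : Nice c SB SA) :
    Mixing (tet SA SB).X := by
  intro W
  obtain ⟨r, hr⟩ := exists_win W
  obtain ⟨C, hC, h⟩ := mixing_pos H H' r
  refine ⟨C, hC, fun q hq x hx y hy => ?_⟩
  rw [tet_iff] at hx hy
  obtain ⟨z, hz, h1, h2⟩ := h q hq _ _ hx hy
  refine ⟨fun p => z p.1 p.2, (tet_iff SA SB _).mpr hz, fun p hp => ?_, fun p hp => ?_⟩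
  · exact h1 p.1 p.2 (hr p hp)
  · exact h2 p.1 p.2 (hr p hp)

end

/-! ### Colourings -/

/-- neighbours -/
noncomputable def nbr (V : Finset (ℤ × K)) (p : ℤ × K) : Finset (ℤ × K) := by
  classical exact V.image (fun v => lm p v) ∪ V.image (fun v => lm p (li v))

lemma nbr_card (V : Finset (ℤ × K)) (p : ℤ × K) : (nbr V p).card ≤ 2 * V.card := by
  classical
  unfold nbr
  calc _ ≤ _ := Finset.card_union_le _ _
    _ ≤ V.card + V.card := add_le_add Finset.card_image_le Finset.card_image_le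
    _ = _ := by ring

lemma nbr_symm {V : Finset (ℤ × K)} {p p' : ℤ × K} (h : p' ∈ nbr V p) : p ∈ nbr V p' := by
  classical
  unfold nbr at h ⊢
  rw [Finset.mem_union, Finset.mem_image, Finset.mem_image] at h ⊢
  rcases h with ⟨v, hv, rfl⟩ | ⟨v, hv, rfl⟩
  · right
    refine ⟨v, hv, ?_⟩
    rw [lm_assoc, lm_li, lm_zero]
  · left
    refine ⟨v, hv, ?_⟩
    rw [lm_assoc, li_lm, lm_zero]

/-- the colouring rule -/
noncomputable def col (V : Finset (ℤ × K)) (N : ℕ) : Sft (Fin N) where
  F0 := by classical exact insert (0, 0) V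
  loc a := ∀ v ∈ V, a v ≠ a (0, 0)
  loc_congr a b h h' v hv := by
    classical
    rw [← h v (Finset.mem_insert_of_mem hv), ← h (0, 0) (Finset.mem_insert_self _ _)]
    exact h' v hv

lemma col_iff (V : Finset (ℤ × K)) (N : ℕ) (z : (ℤ × K) → Fin N) :
    z ∈ (col V N).X ↔ ∀ p, ∀ v ∈ V, z (lm p v) ≠ z p := by
  constructor
  · intro h p v hv
    have := h p v hv
    simp only [lm_zero] at this
    exact this
  · intro h p v hv
    have := h p v hv
    simp only [lm_zero]
    exact this

lemma col_iff' (V : Finset (ℤ × K)) (N : ℕ) (z : (ℤ × K) → Fin N) :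
    z ∈ (col V N).X ↔ ∀ p, ∀ p' ∈ nbr V p, z p' ≠ z p := by
  classical
  rw [col_iff]
  constructor
  · intro h p p' hp'
    unfold nbr at hp'
    rw [Finset.mem_union, Finset.mem_image, Finset.mem_image] at hp'
    rcases hp' with ⟨v, hv, rfl⟩ | ⟨v, hv, rfl⟩
    · exact h p v hv
    · have := h (lm p (li v)) v hv
      rw [lm_assoc, li_lm, lm_zero] at this
      exact this.symm
  · intro h p v hv
    apply h
    unfold nbr
    rw [Finset.mem_union, Finset.mem_image]
    exact Or.inl ⟨v, hv, rfl⟩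

/-- greedy extension of a proper colouring of a set -/
lemma extend_col (V : Finset (ℤ × K)) (hV : ∀ v ∈ V, v ≠ (0, 0)) (D : Set (ℤ × K))
    (g : (ℤ × K) → Fin (2 * V.card + 1))
    (hg : ∀ p ∈ D, ∀ p' ∈ D, p' ∈ nbr V p → g p' ≠ g p) :
    ∃ z ∈ (col V (2 * V.card + 1)).X, ∀ p ∈ D, z p = g p := by
  classical
  obtain ⟨enc, henc⟩ : ∃ enc : (ℤ × K) → ℕ, Function.Injective enc := by
    have : Countable (ℤ × K) := inferInstance
    exact Countable.exists_injective_nat _
  -- for each finite set of at most `2|V|` colours there is a free colour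
  have hfree : ∀ (p : ℤ × K) (f : (ℤ × K) → Fin (2 * V.card + 1)),
      ∃ c : Fin (2 * V.card + 1), ∀ p' ∈ nbr V p, f p' ≠ c := by
    intro p f
    by_contra hcon
    push Not at hcon
    have h1 : (Finset.univ : Finset (Fin (2 * V.card + 1))) ⊆ (nbr V p).image f := by
      intro c _
      obtain ⟨p', hp', e⟩ := hcon c
      exact Finset.mem_image.mpr ⟨p', hp', e⟩
    have h2 := Finset.card_le_card h1
    rw [Finset.card_univ, Fintype.card_fin] at h2
    have h3 := le_trans h2 Finset.card_image_le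
    have := nbr_card V p
    omega
  choose free hfr using hfree
  -- recursion on `enc`
  let rel : (ℤ × K) → (ℤ × K) → Prop := fun a b => enc a < enc b
  have wf : WellFounded rel := InvImage.wf enc Nat.lt_wfRel.wf
  let F : (p : ℤ × K) → ((p' : ℤ × K) → rel p' p → Fin (2 * V.card + 1)) → Fin (2 * V.card + 1) :=
    fun p rec => if p ∈ D then g p else
      free p (fun p' => if p' ∈ D then g p' else if h : rel p' p then rec p' h else g p')
  let z : (ℤ × K) → Fin (2 * V.card + 1) := wf.fix F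
  have hz : ∀ p, z p = if p ∈ D then g p else
      free p (fun p' => if p' ∈ D then g p' else if rel p' p then z p' else g p') := by
    intro p
    have := wf.fix_eq F p
    show wf.fix F p = _
    rw [this]
    simp only [F, dite_eq_ite]
    rfl
  refine ⟨z, ?_, fun p hp => by rw [hz, if_pos hp]⟩
  rw [col_iff']
  -- an ordered version
  have key : ∀ p p', p' ∈ nbr V p → p ∉ D → (p' ∈ D ∨ rel p' p) → z p' ≠ z p := by
    intro p p' hpp' hpD h
    rw [hz p, if_neg hpD]
    have := hfr p (fun p' => if p' ∈ D then g p' else if rel p' p then z p' else g p') p' hpp'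
    rcases h with h | h
    · rw [hz p', if_pos h]
      simp only [if_pos h] at this
      exact this
    · by_cases h' : p' ∈ D
      · rw [hz p', if_pos h']
        simp only [if_pos h'] at this
        exact this
      · simp only [if_neg h', if_pos h] at this
        exact this
  intro p p' hpp'
  by_cases hp : p ∈ D
  · by_cases hp' : p' ∈ D
    · rw [hz p', hz p, if_pos hp, if_pos hp']
      exact hg p hp p' hp' hpp'
    · exact (key p' p (nbr_symm hpp') hp' (Or.inl hp)).symm
  · by_cases hp' : p' ∈ D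
    · exact key p p' hpp' hp (Or.inl hp')
    · have hne : p' ≠ p := by
        rintro rfl
        unfold nbr at hpp'
        rw [Finset.mem_union, Finset.mem_image, Finset.mem_image] at hpp'
        rcases hpp' with ⟨v, hv, e⟩ | ⟨v, hv, e⟩
        · apply hV v hv
          have : lm (li p') (lm p' v) = lm (li p') p' := by rw [e]
          rw [← lm_assoc, li_lm, zero_lm] at this
          exact this
        · apply hV v hv
          have : lm (li p') (lm p' (li v)) = lm (li p') p' := by rw [e]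
          rw [← lm_assoc, li_lm, zero_lm] at this
          have h2 : lm v (li v) = lm v (0, 0) := by rw [this]
          rw [lm_li, lm_zero] at h2
          exact h2.symm
      rcases lt_trichotomy (enc p') (enc p) with h | h | h
      · exact key p p' hpp' hp (Or.inr h)
      · exact absurd (henc h) hne
      · exact (key p' p (nbr_symm hpp') hp' (Or.inr h)).symm

lemma lm_cancel_right {a b p : ℤ × K} (h : lm a p = lm b p) : a = b := by
  have : lm (lm a p) (li p) = lm (lm b p) (li p) := by rw [h]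
  rwa [lm_assoc, lm_assoc, lm_li, lm_zero, lm_zero] at this

lemma lm_cancel_left {a b p : ℤ × K} (h : lm p a = lm p b) : a = b := by
  have : lm (li p) (lm p a) = lm (li p) (lm p b) := by rw [h]
  rwa [← lm_assoc, ← lm_assoc, li_lm, zero_lm, zero_lm] at this

lemma col_mixing (V : Finset (ℤ × K)) (hV : ∀ v ∈ V, v ≠ (0, 0)) :
    Mixing (col V (2 * V.card + 1)).X := by
  classical
  intro W
  -- q must avoid: lm q w' = w, or adjacent
  refine ⟨{q | ∃ w ∈ W, ∃ w' ∈ W, lm q w' = w ∨ lm q w' ∈ nbr V w}, ?_, ?_⟩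
  · have : {q | ∃ w ∈ W, ∃ w' ∈ W, lm q w' = w ∨ lm q w' ∈ nbr V w} ⊆
        ⋃ w ∈ W, ⋃ w' ∈ W, {q | lm q w' ∈ insert w (nbr V w)} := by
      rintro q ⟨w, hw, w', hw', h⟩
      simp only [Set.mem_iUnion, Set.mem_ofPred_eq]
      exact ⟨w, hw, w', hw', Finset.mem_insert.mpr h⟩
    apply Set.Finite.subset _ this
    apply Set.Finite.biUnion (Finset.finite_toSet W)
    intro w _
    apply Set.Finite.biUnion (Finset.finite_toSet W)
    intro w' _
    exact Set.Finite.preimage (fun a _ b _ h => lm_cancel_right h) (Finset.finite_toSet (insert w (nbr V w)))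
  · intro q hq x hx y hy
    rw [col_iff'] at hx hy
    let g : (ℤ × K) → Fin (2 * V.card + 1) := fun p => if p ∈ W then x p else y (lm (li q) p)
    have hqW : ∀ w ∈ W, lm q w ∉ W := fun w hw h => hq ⟨_, h, w, hw, Or.inl rfl⟩
    have hgx : ∀ p ∈ W, g p = x p := fun p hp => by simp only [g]; rw [if_pos hp]
    have hgy : ∀ p ∈ W, g (lm q p) = y p := fun p hp => by
      simp only [g]; rw [if_neg (hqW p hp), ← lm_assoc, li_lm, zero_lm]
    obtain ⟨z, hz, hzg⟩ := extend_col V hV {p | p ∈ W ∨ ∃ w ∈ W, p = lm q w} g (by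
      rintro p (hp | ⟨w, hw, rfl⟩) p' (hp' | ⟨w', hw', rfl⟩) hpp'
      · rw [hgx p hp, hgx p' hp']
        exact hx p p' hpp'
      · exact absurd ⟨p, hp, w', hw', Or.inr hpp'⟩ hq
      · exact absurd ⟨p', hp', w, hw, Or.inr (nbr_symm hpp')⟩ hq
      · rw [hgy w hw, hgy w' hw']
        apply hy w w'
        unfold nbr at hpp' ⊢
        rw [Finset.mem_union, Finset.mem_image, Finset.mem_image] at hpp' ⊢
        rcases hpp' with ⟨v, hv, e⟩ | ⟨v, hv, e⟩
        · left
          rw [lm_assoc] at e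
          exact ⟨v, hv, lm_cancel_left e⟩
        · right
          rw [lm_assoc] at e
          exact ⟨v, hv, lm_cancel_left e⟩)
    refine ⟨z, hz, fun p hp => ?_, fun p hp => ?_⟩
    · rw [hzg p (Or.inl hp), hgx p hp]
    · rw [hzg _ (Or.inr ⟨p, hp, rfl⟩), hgy p hp]

lemma col_nonempty (V : Finset (ℤ × K)) (hV : ∀ v ∈ V, v ≠ (0, 0)) :
    (col V (2 * V.card + 1)).X.Nonempty := by
  obtain ⟨z, hz, -⟩ := extend_col V hV ∅ (fun _ => 0) (fun p hp => absurd hp (Set.notMem_empty _))
  exact ⟨z, hz⟩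

/-- conjugating the lamps of a non-horizontal element into a bounded window -/
lemma conj_small (k : ℤ) (hk : k ≠ 0) (φ : K) :
    ∃ ψ : K, ∀ i, (i < 0 ∨ |k| ≤ i) → (ψ + φ + sh k ψ) i = 0 := by
  classical
  -- single lamps
  have hstep : ∀ j : ℤ, (∃ ψ : K, ∀ i, (i < 0 ∨ |k| ≤ i) → (ψ + Finsupp.single j 1 + sh k ψ : K) i = 0) ↔
      (∃ ψ : K, ∀ i, (i < 0 ∨ |k| ≤ i) → (ψ + Finsupp.single (j + k) 1 + sh k ψ : K) i = 0) := by
    intro j
    have e2 : (Finsupp.single j 1 : K) + Finsupp.single j 1 = 0 := by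
      rw [← Finsupp.single_add, one_add_one_zmod2, Finsupp.single_zero]
    have e3 : sh k (Finsupp.single j 1 : K) = Finsupp.single (j + k) 1 := by
      have := sh_fl k j 0
      unfold fl at this
      simpa [sh_zero] using this
    have e4 : (Finsupp.single (j + k) 1 : K) + Finsupp.single (j + k) 1 = 0 := by
      rw [← Finsupp.single_add, one_add_one_zmod2, Finsupp.single_zero]
    constructor
    · rintro ⟨ψ, h⟩
      refine ⟨ψ + Finsupp.single j 1, fun i hi => ?_⟩
      have e : ψ + Finsupp.single j 1 + Finsupp.single (j + k) 1 +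
          sh k (ψ + Finsupp.single j 1) = ψ + Finsupp.single j 1 + sh k ψ := by
        rw [sh_add, e3]
        calc _ = ψ + Finsupp.single j 1 + sh k ψ +
              (Finsupp.single (j + k) 1 + Finsupp.single (j + k) 1) := by abel
          _ = _ := by rw [e4, add_zero]
      rw [e]; exact h i hi
    · rintro ⟨ψ, h⟩
      refine ⟨ψ + Finsupp.single j 1, fun i hi => ?_⟩
      have e : ψ + Finsupp.single j 1 + Finsupp.single j 1 +
          sh k (ψ + Finsupp.single j 1) = ψ + Finsupp.single (j + k) 1 + sh k ψ := by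
        rw [sh_add, e3]
        calc _ = ψ + Finsupp.single (j + k) 1 + sh k ψ +
              (Finsupp.single j 1 + Finsupp.single j 1) := by abel
          _ = _ := by rw [e2, add_zero]
      rw [e]; exact h i hi
  have hsingle : ∀ j : ℤ,
      ∃ ψ : K, ∀ i, (i < 0 ∨ |k| ≤ i) → (ψ + Finsupp.single j 1 + sh k ψ : K) i = 0 := by
    intro j
    have hbase : ∃ ψ : K, ∀ i, (i < 0 ∨ |k| ≤ i) →
        (ψ + Finsupp.single (j % k) 1 + sh k ψ : K) i = 0 := by
      refine ⟨0, fun i hi => ?_⟩
      rw [sh_zero, zero_add, add_zero, Finsupp.single_apply, if_neg]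
      intro h
      have h1 := Int.emod_nonneg j hk
      have h2 := Int.emod_lt_abs j hk
      omega
    have hall : ∀ a : ℤ, ∃ ψ : K, ∀ i, (i < 0 ∨ |k| ≤ i) →
        (ψ + Finsupp.single (j % k + a * k) 1 + sh k ψ : K) i = 0 := by
      intro a
      induction a using Int.induction_on with
      | zero => simpa using hbase
      | succ a ih =>
        have := (hstep (j % k + a * k)).mp ih
        rw [show j % k + (a : ℤ) * k + k = j % k + ((a : ℤ) + 1) * k by ring] at this
        exact this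
      | pred a ih =>
        apply (hstep (j % k + (-(a : ℤ) - 1) * k)).mpr
        rw [show j % k + (-(a : ℤ) - 1) * k + k = j % k + (-(a : ℤ)) * k by ring]
        exact ih
    have := hall (j / k)
    rwa [show j % k + j / k * k = j by rw [add_comm]; exact Int.ediv_mul_add_emod j k] at this
  rw [← sum_support φ]
  generalize φ.support = s
  induction s using Finset.induction_on with
  | empty => exact ⟨0, fun i _ => by simp [sh_zero]⟩
  | insert a s ha ih =>
    obtain ⟨ψ, h⟩ := ih
    obtain ⟨ψ', h'⟩ := hsingle a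
    refine ⟨ψ + ψ', fun i hi => ?_⟩
    rw [Finset.sum_insert ha, sh_add]
    have e : ψ + ψ' + (Finsupp.single a 1 + ∑ x ∈ s, Finsupp.single x 1) + (sh k ψ + sh k ψ') =
        (ψ + ∑ x ∈ s, Finsupp.single x 1 + sh k ψ) + (ψ' + Finsupp.single a 1 + sh k ψ') := by
      abel
    rw [e, Finsupp.add_apply, h i hi, h' i hi, add_zero]

/-- the finite set of test elements of height between `1` and `M` in absolute value -/
lemma exists_tests (M : ℕ) : ∃ V : Finset (ℤ × K), (∀ v ∈ V, v ≠ (0, 0)) ∧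
    ∀ q : ℤ × K, q.1 ≠ 0 → |q.1| ≤ M → ∃ p, ∃ v ∈ V, lm q p = lm p v := by
  classical
  have hfin := finite_box (M : ℤ)
  refine ⟨hfin.toFinset.filter (fun v => v ≠ (0, 0)), ?_, ?_⟩
  · intro v hv
    exact (Finset.mem_filter.mp hv).2
  · rintro ⟨k, φ⟩ hk hM
    obtain ⟨ψ, hψ⟩ := conj_small k hk φ
    have e2 : ∀ g : K, g + g = 0 := by
      intro g
      ext i
      rw [Finsupp.add_apply, Finsupp.zero_apply]
      generalize g i = a
      revert a
      decide
    refine ⟨(0, ψ), (k, ψ + φ + sh k ψ), ?_, ?_⟩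
    · rw [Finset.mem_filter, Set.Finite.mem_toFinset]
      refine ⟨⟨?_, ?_, ?_⟩, ?_⟩
      · exact (abs_le.mp hM).1
      · exact (abs_le.mp hM).2
      · intro i hi
        simp only at hi hM
        have : ¬ (i < 0 ∨ |k| ≤ i) := fun h => hi (hψ i h)
        omega
      · intro h
        exact hk (congrArg Prod.fst h)
    · unfold lm
      simp only [sh_zero', add_zero, zero_add]
      ext
      · rfl
      · simp only
        rw [← add_assoc, ← add_assoc, e2, zero_add]

end Run7.h687.Lamp
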