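import Pool.Agent.Run7.h687.Sys

set_option autoImplicit false

namespace Run7.h687.Lamp

section
variable {R : Type*} [CommRing R]

/-- connection between level `n` function `t` and level `n'` function `t'` -/
def Conn (SA SB : Set R) (n n' : ℤ) (t t' : K → R) : Prop :=
  ∃ s : ℤ → K → R, s n = t ∧ s n' = t' ∧ ∀ k, n ≤ k → k < n' → Step SA SB k (s k) (s (k + 1))

lemma Conn.refl (SA SB : Set R) (n : ℤ) (t : K → R) : Conn SA SB n n t t :=
  ⟨fun _ => t, rfl, rfl, fun k h1 h2 => absurd h2 (by omega)⟩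

lemma Conn.single {SA SB : Set R} {n : ℤ} {t t' : K → R} (h : Step SA SB n t t') :
    Conn SA SB n (n + 1) t t' := by
  refine ⟨fun k => if k ≤ n then t else t', by simp, by simp, fun k h1 h2 => ?_⟩
  have : k = n := by omega
  subst this
  simpa using h

lemma Conn.trans {SA SB : Set R} {n n' n'' : ℤ} {t t' t'' : K → R} (h0 : n ≤ n') (h0' : n' ≤ n'')
    (h : Conn SA SB n n' t t') (h' : Conn SA SB n' n'' t' t'') : Conn SA SB n n'' t t'' := by
  obtain ⟨s, hs1, hs2, hs⟩ := h
  obtain ⟨s', hs1', hs2', hs'⟩ := h'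
  refine ⟨fun k => if k ≤ n' then s k else s' k, ?_, ?_, fun k h1 h2 => ?_⟩
  · simp only [if_pos h0]; exact hs1
  · by_cases e : n'' = n'
    · subst e
      simp only [le_refl, if_true]
      rw [hs2, ← hs1', hs2']
    · simp only [if_neg (show ¬ n'' ≤ n' by omega)]; exact hs2'
  · by_cases hk : k < n'
    · simp only [if_pos (show k ≤ n' by omega), if_pos (show k + 1 ≤ n' by omega)]
      exact hs k h1 hk
    · by_cases hk' : k = n'
      · subst hk'
        simp only [le_refl, if_true, if_neg (show ¬ k + 1 ≤ k by omega)]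
        rw [hs2, ← hs1']
        exact hs' k le_rfl h2
      · simp only [if_neg (show ¬ k ≤ n' by omega), if_neg (show ¬ k + 1 ≤ n' by omega)]
        exact hs' k (by omega) h2

/-- the value of the difference at node `(m,g)` seen from level `n` -/
noncomputable def nd (c : R) (n : ℤ) (t : K → R) (ν : ℤ × K) : R := d ν.1 (A c n ν.1 t) ν.2

/-- a node is valid: `g` is supported strictly above `m` -/
def Node (ν : ℤ × K) : Prop := ∀ i, i ≤ ν.1 → ν.2 i = 0

/-- condition that `f` passes through the node `(m,g)` at level `n` -/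
def Thru (n : ℤ) (ν : ℤ × K) (f : K) : Prop := (∀ i, i < n → f i = 0) ∧ (∀ i, ν.1 < i → f i = ν.2 i)

open Classical in
/-- the steering drive -/
noncomputable def drv (n : ℤ) (ν : ℤ × K) (U T : R) : K → R :=
  fun f => U + (if Thru n ν f then sg R ν.1 f * T else 0)

lemma thru_fl {n : ℤ} {ν : ℤ × K} {i : ℤ} (h1 : n ≤ i) (h2 : i ≤ ν.1) (f : K) :
    Thru n ν (fl i f) ↔ Thru n ν f := by
  unfold Thru
  constructor
  · rintro ⟨a, b⟩
    refine ⟨fun j hj => ?_, fun j hj => ?_⟩
    · rw [← a j hj, fl_ne (by omega)]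
    · rw [← b j hj, fl_ne (by omega)]
  · rintro ⟨a, b⟩
    refine ⟨fun j hj => ?_, fun j hj => ?_⟩
    · rw [fl_ne (by omega)]; exact a j hj
    · rw [fl_ne (by omega)]; exact b j hj

lemma drv_fl_lt {n : ℤ} {ν : ℤ × K} {U T : R} {i : ℤ} (h1 : n ≤ i) (h2 : i < ν.1) (f : K) :
    drv n ν U T (fl i f) = drv n ν U T f := by
  have e := thru_fl (ν := ν) h1 (le_of_lt h2) f
  unfold drv
  rw [sg_fl_ne (by omega)]
  by_cases h : Thru n ν f
  · rw [if_pos h, if_pos (e.mpr h)]
  · rw [if_neg h, if_neg (fun h' => h (e.mp h'))]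

open Classical in
lemma d_drv_same {n : ℤ} {ν : ℤ × K} {U T : R} (h1 : n ≤ ν.1) (f : K) :
    d ν.1 (drv n ν U T) f = if Thru n ν f then 2 * (sg R ν.1 f * T) else 0 := by
  have e := thru_fl (ν := ν) h1 le_rfl f
  unfold d drv
  rw [sg_fl_same]
  by_cases h : Thru n ν f
  · rw [if_pos h, if_pos (e.mpr h), if_pos h]; ring
  · rw [if_neg h, if_neg (fun h' => h (e.mp h')), if_neg h]; ring

lemma A_drv_le (c : R) (hc : 2 * c = 1) {n m : ℤ} {ν : ℤ × K} {U T : R} (h1 : n < m) (h2 : m ≤ ν.1) :
    A c (n + 1) m (drv n ν U T) = drv n ν U T :=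
  A_eq_self c hc (by omega) _ (fun i hi1 hi2 f => drv_fl_lt (by omega) (by omega) f)

lemma A_drv_gt (c : R) (hc : 2 * c = 1) {n m : ℤ} {ν : ℤ × K} {U T : R} (h0 : n < ν.1)
    (h2 : ν.1 < m) : A c (n + 1) m (drv n ν U T) = fun _ => U := by
  rw [A_trans c (show n + 1 ≤ ν.1 + 1 by omega) (show ν.1 + 1 ≤ m by omega),
    A_succ_right c (by omega), A_drv_le c hc h0 le_rfl]
  have : E c ν.1 (drv n ν U T) = fun _ => U := by
    funext f
    have e := thru_fl (ν := ν) (le_of_lt h0) le_rfl f
    unfold E drv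
    rw [sg_fl_same]
    by_cases h : Thru n ν f
    · rw [if_pos h, if_pos (e.mpr h)]
      linear_combination U * hc
    · rw [if_neg h, if_neg (fun h' => h (e.mp h'))]
      linear_combination U * hc
  rw [this, A_const c hc (by omega)]

/-- difference at a node on a path through that node -/
lemma nd_thru (c : R) {n : ℤ} {ν : ℤ × K} (h0 : n < ν.1) (hν : Node ν) (t : K → R) {f : K}
    (hf : Thru n ν f) : d ν.1 (A c n ν.1 t) f = sg R ν.1 f * nd c n t ν := by
  have key : ∀ f', Thru n ν f' → f' ν.1 = 0 → d ν.1 (A c n ν.1 t) f' = nd c n t ν := by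
    intro f' hf' h0'
    unfold nd
    rw [d_A]
    apply inv_of_agree _ (fun i => n ≤ i ∧ i < ν.1)
    · intro i hi f
      exact A_inv c hi.1 hi.2 _ f
    · intro i hi
      rcases lt_trichotomy i ν.1 with h | h | h
      · have h3 : i < n := by
          by_contra h4
          exact hi ⟨by omega, h⟩
        rw [hf'.1 i h3, hν i (le_of_lt h)]
      · rw [h, h0', hν _ le_rfl]
      · exact hf'.2 i h
  by_cases h : f ν.1 = 0
  · rw [key f hf h]
    unfold sg
    rw [if_pos h, one_mul]
  · have h1 : Thru n ν (fl ν.1 f) := (thru_fl (le_of_lt h0) le_rfl f).mpr hf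
    have h2 : (fl ν.1 f) ν.1 = 0 := by
      rw [fl_same_zero]; exact h
    have := key _ h1 h2
    unfold sg
    rw [if_neg h, ← this]
    simp only [d, fl_fl]
    ring

/-- Phase 1, one step. -/
lemma steer_step (c : R) (hc : 2 * c = 1) {SA SB : Set R} (hA : Sym SA) (hB : Sym SB)
    {n : ℤ} {t : K → R} (hg : Good c SA n t) {ν : ℤ × K} (hν : Node ν) (hn : n < ν.1)
    {U T : R} (hU : U ∈ SB) (hU1 : U + T ∈ SB) (hU2 : U - T ∈ SB)
    (hT : T ≠ 0 → nd c n t ν + T ∈ SA ∧ nd c n t ν - T ∈ SA) :
    ∃ t' : K → R, Step SA SB n t t' ∧ Good c SA (n + 1) t' ∧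
      nd c (n + 1) t' ν = nd c n t ν + T ∧
      (∀ ν', Node ν' → n < ν'.1 → ν' ≠ ν → nd c (n + 1) t' ν' = nd c n t ν') ∧
      (∀ q, ν.1 < q → A c (n + 1) q t' 0 = A c n q t 0 + c * U) := by
  classical
  refine ⟨nxt c n t (drv n ν U T), ?_, ?_, ?_, ?_, ?_⟩
  · apply nxt_step c hc hB hg (fun f => drv_fl_lt le_rfl hn f)
    intro f
    unfold drv
    split_ifs
    · rcases sg_cases (R := R) ν.1 f with e | e <;> rw [e]
      · simpa using hU1
      · simpa [sub_eq_add_neg] using hU2
    · simpa using hU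
  · apply nxt_good c hc
    intro m hm f
    rcases lt_trichotomy m ν.1 with h | h | h
    · rw [A_drv_le c hc hm (le_of_lt h)]
      have : d m (drv n ν U T) f = 0 := by
        simp only [d]
        rw [drv_fl_lt (le_of_lt hm) h, sub_self]
      rw [this, mul_zero, mul_zero, add_zero]
      exact hg m (le_of_lt hm) f
    · subst h
      rw [A_drv_le c hc hm le_rfl, d_drv_same (le_of_lt hm)]
      by_cases hth : Thru n ν f
      · rw [if_pos hth, nd_thru c hm hν t hth]
        have e : sg R ν.1 f * nd c n t ν + c * (sg R n f * (2 * (sg R ν.1 f * T))) =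
            sg R ν.1 f * (nd c n t ν + sg R n f * T) := by
          linear_combination (sg R n f * sg R ν.1 f * T) * hc
        rw [e]
        apply hA.sg
        by_cases hT0 : T = 0
        · subst hT0
          rw [mul_zero, add_zero]
          exact hg ν.1 (le_of_lt hm) ν.2
        · have := hT hT0
          rcases sg_cases (R := R) n f with e | e <;> rw [e]
          · simpa using this.1
          · simpa [sub_eq_add_neg] using this.2
      · rw [if_neg hth, mul_zero, mul_zero, add_zero]
        exact hg ν.1 (le_of_lt hm) f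
    · rw [A_drv_gt c hc hn h]
      simp only [d, sub_self, mul_zero, add_zero]
      exact hg m (le_of_lt hm) f
  · unfold nd
    rw [d_A_nxt c hc hn, A_drv_le c hc hn le_rfl, d_drv_same (le_of_lt hn)]
    have hth : Thru n ν ν.2 := ⟨fun i hi => hν i (by omega), fun i _ => rfl⟩
    rw [if_pos hth]
    have e1 : sg R n ν.2 = 1 := by unfold sg; rw [if_pos (hν n (le_of_lt hn))]
    have e2 : sg R ν.1 ν.2 = 1 := by unfold sg; rw [if_pos (hν _ le_rfl)]
    rw [e1, e2]
    linear_combination T * hc
  · intro ν' hν' hn' hne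
    unfold nd
    rw [d_A_nxt c hc hn']
    have : d ν'.1 (A c (n + 1) ν'.1 (drv n ν U T)) ν'.2 = 0 := by
      rcases lt_trichotomy ν'.1 ν.1 with h | h | h
      · rw [A_drv_le c hc hn' (le_of_lt h)]
        simp only [d]
        rw [drv_fl_lt (le_of_lt hn') h, sub_self]
      · rw [h, A_drv_le c hc hn le_rfl, d_drv_same (le_of_lt hn), if_neg]
        intro hth
        apply hne
        apply Prod.ext h
        ext i
        by_cases hi : i ≤ ν.1
        · rw [hν i hi, hν' i (by omega)]
        · exact hth.2 i (by omega)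
      · rw [A_drv_gt c hc hn h]
        simp only [d, sub_self]
    rw [this, mul_zero, mul_zero, add_zero]
  · intro q hq
    rw [A_nxt c hc (by omega), A_drv_gt c hc hn hq]
    have e1 : sg R n (0 : K) = 1 := by unfold sg; rw [if_pos]; simp
    simp only [e1, one_mul]

/-- Elementary moves in `SA`, possible thanks to `SB`. -/
def Move (SA SB : Set R) (a a' : R) : Prop :=
  ∃ T U : R, a' = a + T ∧ (T ≠ 0 → a + T ∈ SA ∧ a - T ∈ SA) ∧ U ∈ SB ∧ U + T ∈ SB ∧ U - T ∈ SB

/-- paths of moves -/
def PathN (SA SB : Set R) : ℕ → R → R → Prop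
  | 0, a, a' => a = a'
  | (L + 1), a, a' => ∃ a'', Move SA SB a a'' ∧ PathN SA SB L a'' a'

lemma run_node (c : R) (hc : 2 * c = 1) {SA SB : Set R} (hA : Sym SA) (hB : Sym SB)
    {ν : ℤ × K} (hν : Node ν) (L : ℕ) : ∀ (n : ℤ) (t : K → R) (a' : R),
    n + L ≤ ν.1 → Good c SA n t → PathN SA SB L (nd c n t ν) a' →
    ∃ t', Conn SA SB n (n + L) t t' ∧ Good c SA (n + L) t' ∧ nd c (n + L) t' ν = a' ∧
      ∀ ν', Node ν' → n + L ≤ ν'.1 → ν' ≠ ν → nd c (n + L) t' ν' = nd c n t ν' := by
  induction L with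
  | zero =>
    intro n t a' hn hg hp
    have e : n + ((0 : ℕ) : ℤ) = n := by simp
    rw [e]
    exact ⟨t, Conn.refl _ _ _ _, hg, hp, fun _ _ _ _ => rfl⟩
  | succ L ih =>
    intro n t a' hn hg hp
    obtain ⟨a'', ⟨T, U, rfl, hT, hU, hU1, hU2⟩, hp'⟩ := hp
    push_cast at hn
    obtain ⟨t1, hs, hg1, hnd, hoth, -⟩ := steer_step c hc hA hB hg hν (by omega) hU hU1 hU2 hT
    obtain ⟨t2, hc2, hg2, hnd2, hoth2⟩ := ih (n + 1) t1 a' (by omega) hg1 (by rw [hnd]; exact hp')
    have e : n + ((L + 1 : ℕ) : ℤ) = n + 1 + (L : ℤ) := by push_cast; ring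
    rw [e]
    refine ⟨t2, Conn.trans (by omega) (by omega) (Conn.single hs) hc2, hg2, hnd2, ?_⟩
    intro ν' hν' h1 h2
    rw [hoth2 ν' hν' h1 h2, hoth ν' hν' (by omega) h2]

lemma run_nodes (c : R) (hc : 2 * c = 1) {SA SB : Set R} (hA : Sym SA) (hB : Sym SB)
    (L : ℕ) (hL : ∀ a ∈ SA, ∀ a' ∈ SA, PathN SA SB L a a') (tgt : ℤ × K → R)
    (S : Finset (ℤ × K)) : ∀ (b : ℤ), (∀ ν ∈ S, Node ν ∧ b ≤ ν.1 ∧ tgt ν ∈ SA) →
    ∀ (n : ℤ) (t : K → R), n + S.card * L ≤ b → Good c SA n t →
    ∃ t', Conn SA SB n (n + S.card * L) t t' ∧ Good c SA (n + S.card * L) t' ∧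
      ∀ ν ∈ S, nd c (n + S.card * L) t' ν = tgt ν := by
  classical
  induction S using Finset.induction_on with
  | empty =>
    intro b hS n t hn hg
    have e : n + (((∅ : Finset (ℤ × K)).card : ℕ) : ℤ) * (L : ℤ) = n := by simp
    rw [e]
    exact ⟨t, Conn.refl _ _ _ _, hg, fun ν hν => absurd hν (Finset.notMem_empty _)⟩
  | insert ν S hνS ih =>
    intro b hS n t hn hg
    rw [Finset.card_insert_of_notMem hνS] at hn ⊢
    have e : n + (((S.card + 1 : ℕ)) : ℤ) * (L : ℤ) = (n + S.card * L) + L := by push_cast; ring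
    rw [e] at hn ⊢
    obtain ⟨t1, hc1, hg1, h1⟩ := ih b (fun ν' hν' => hS ν' (Finset.mem_insert_of_mem hν')) n t
      (by omega) hg
    have hν := hS ν (Finset.mem_insert_self _ _)
    have hle : n ≤ n + S.card * L := by
      have : (0 : ℤ) ≤ S.card * L := by positivity
      omega
    obtain ⟨t2, hc2, hg2, hnd, hoth⟩ := run_node c hc hA hB hν.1 L (n + S.card * L) t1 (tgt ν)
      (by omega) hg1 (hL _ (hg1 ν.1 (by omega) ν.2) _ hν.2.2)
    refine ⟨t2, Conn.trans hle (by omega) hc1 hc2, hg2, ?_⟩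
    intro ν' hν'
    rcases Finset.mem_insert.mp hν' with h | h
    · rw [h]; exact hnd
    · have h3 := hS ν' hν'
      rw [hoth ν' h3.1 (by omega) (fun e => hνS (e ▸ h))]
      exact h1 ν' h

/-- sums of `N` elements of a set -/
def SumN (SB : Set R) : ℕ → R → Prop
  | 0, v => v = 0
  | (N + 1), v => ∃ U ∈ SB, SumN SB N (v - U)

lemma run_e (c : R) (hc : 2 * c = 1) {SA SB : Set R} (hA : Sym SA) (hB : Sym SB)
    (b : ℤ) (N : ℕ) : ∀ (n : ℤ) (t : K → R) (v : R),
    n + N ≤ b → Good c SA n t → SumN SB N v →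
    ∃ t', Conn SA SB n (n + N) t t' ∧ Good c SA (n + N) t' ∧
      (∀ ν, Node ν → b ≤ ν.1 → nd c (n + N) t' ν = nd c n t ν) ∧
      (∀ q, b < q → A c (n + N) q t' 0 = A c n q t 0 + c * v) := by
  induction N with
  | zero =>
    intro n t v hn hg hv
    have e : n + ((0 : ℕ) : ℤ) = n := by simp
    rw [e]
    refine ⟨t, Conn.refl _ _ _ _, hg, fun _ _ _ => rfl, fun q _ => ?_⟩
    have : v = 0 := hv
    rw [this, mul_zero, add_zero]
  | succ N ih =>
    intro n t v hn hg hv
    obtain ⟨U, hU, hv'⟩ := hv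
    push_cast at hn
    have hν : Node ((b, 0) : ℤ × K) := fun i _ => rfl
    obtain ⟨t1, hs, hg1, hnd, hoth, he⟩ := steer_step c hc hA hB hg hν (by simp only; omega)
      (U := U) (T := 0) hU (by simpa using hU) (by simpa using hU) (fun h => absurd rfl h)
    obtain ⟨t2, hc2, hg2, hnd2, he2⟩ := ih (n + 1) t1 (v - U) (by omega) hg1 hv'
    have e : n + ((N + 1 : ℕ) : ℤ) = n + 1 + (N : ℤ) := by push_cast; ring
    rw [e]
    refine ⟨t2, Conn.trans (by omega) (by omega) (Conn.single hs) hc2, hg2, ?_, ?_⟩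
    · intro ν' hν' h1
      rw [hnd2 ν' hν' h1]
      by_cases h : ν' = (b, 0)
      · rw [h, hnd, add_zero]
      · exact hoth ν' hν' (by omega) h
    · intro q hq
      rw [he2 q hq, he q hq]
      ring

/-- Haar uniqueness -/
lemma haar_unique (c : R) (hc : 2 * c = 1) {b q : ℤ} (hbq : b ≤ q) (t x : K → R)
    (h1 : ∀ ν : ℤ × K, Node ν → b ≤ ν.1 → ν.1 < q → (∀ i, q ≤ i → ν.2 i = 0) →
      nd c b t ν = nd c b x ν)
    (h2 : A c b q t 0 = A c b q x 0) :
    ∀ f : K, (∀ i, i < b ∨ q ≤ i → f i = 0) → t f = x f := by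
  -- claim: for all `p ∈ [b,q]`, `A c b p t f = A c b p x f` for `f` in the class
  have claim : ∀ k : ℕ, ∀ p : ℤ, b ≤ p → p + k = q → ∀ f : K, (∀ i, i < b ∨ q ≤ i → f i = 0) →
      A c b p t f = A c b p x f := by
    intro k
    induction k with
    | zero =>
      intro p hp hpq f hf
      have : p = q := by simpa using hpq
      subst this
      have e : ∀ u : K → R, A c b p u f = A c b p u 0 := by
        intro u
        apply inv_of_agree _ (fun i => b ≤ i ∧ i < p)
        · intro i hi f
          exact A_inv c hi.1 hi.2 _ f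
        · intro i hi
          rw [hf i (by by_contra h; exact hi ⟨by omega, by omega⟩)]
          rfl
      rw [e, e, h2]
    | succ k ih =>
      intro p hp hpq f hf
      push_cast at hpq
      have h3 := ih (p + 1) (by omega) (by omega) f hf
      rw [A_succ_right c hp, A_succ_right c hp] at h3
      -- the node on the path of f at lamp p
      set g : K := f.filter (fun i => p < i) with hgdef
      have hgi : ∀ i, p < i → g i = f i := fun i hi => by
        rw [hgdef, Finsupp.filter_apply_pos (fun i => p < i) f hi]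
      have hgi' : ∀ i, i ≤ p → g i = 0 := fun i hi => by
        rw [hgdef, Finsupp.filter_apply_neg (fun i => p < i) f (by omega)]
      have hnode : Node (p, g) := fun i hi => hgi' i hi
      have h4 := h1 (p, g) hnode hp (by simp only; omega) (fun i hi => by
        simp only
        by_cases hpi : p < i
        · rw [hgi i hpi]; exact hf i (Or.inr hi)
        · exact hgi' i (by omega))
      -- d at f in terms of d at g
      have e : ∀ u : K → R, d p (A c b p u) f = sg R p f * nd c b u (p, g) := by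
        intro u
        have key : ∀ f' : K, (∀ i, i < b → f' i = 0) → (∀ i, p < i → f' i = g i) → f' p = 0 →
            d p (A c b p u) f' = nd c b u (p, g) := by
          intro f' ha hb h0'
          unfold nd
          rw [d_A]
          apply inv_of_agree _ (fun i => b ≤ i ∧ i < p)
          · intro i hi f
            exact A_inv c hi.1 hi.2 _ f
          · intro i hi
            rcases lt_trichotomy i p with h | h | h
            · have h3 : i < b := by
                by_contra h4
                exact hi ⟨by omega, h⟩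
              rw [ha i h3, hgi' i (le_of_lt h)]
            · rw [h, h0']; exact (hgi' p le_rfl).symm
            · exact hb i h
        by_cases h : f p = 0
        · rw [key f (fun i hi => hf i (Or.inl hi)) (fun i hi => (hgi i hi).symm) h]
          unfold sg
          rw [if_pos h, one_mul]
        · have h5 : (fl p f) p = 0 := by
            rw [fl_same_zero]; exact h
          have := key (fl p f) (fun i hi => by rw [fl_ne (by omega)]; exact hf i (Or.inl hi))
            (fun i hi => by rw [fl_ne (by omega)]; exact (hgi i hi).symm) h5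
          unfold sg
          rw [if_neg h, ← this]
          simp only [d, fl_fl]
          ring
      have h5 : d p (A c b p t) f = d p (A c b p x) f := by rw [e, e, h4]
      simp only [d] at h5
      simp only [E] at h3
      have h6 : A c b p t f + A c b p t (fl p f) = A c b p x f + A c b p x (fl p f) := by
        linear_combination 2 * h3 - (A c b p t f + A c b p t (fl p f)) * hc
          + (A c b p x f + A c b p x (fl p f)) * hc
      linear_combination c * h5 + c * h6 - (A c b p t f - A c b p x f) * hc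
  intro f hf
  have := claim (q - b).toNat b le_rfl (by omega) f hf
  rwa [A_self, A_self] at this

end

end Run7.h687.Lamp
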