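import Pool.Agent.Run7.h687.Core

set_option autoImplicit false

namespace Run7.h687.Lamp

section
variable {R : Type*} [CommRing R]

/-- one step of the system: rules between level `n` and level `n+1` -/
structure Step (SA SB : Set R) (n : ℤ) (t t' : K → R) : Prop where
  e : ∀ f, t' f + t' (fl n f) = t f + t (fl n f)
  a : ∀ f, t f - t (fl n f) ∈ SA
  b : ∀ f, t' f - t' (fl n f) ∈ SB

/-- the subshift, as a set of functions `ℤ → K → R` -/
def IsX (SA SB : Set R) (z : ℤ → K → R) : Prop := ∀ n, Step SA SB n (z n) (z (n + 1))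

/-- the midpoint-closure condition -/
def Closed (c : R) (SA SB : Set R) : Prop :=
  ∀ a1 ∈ SA, ∀ a2 ∈ SA, ∀ b1 ∈ SB, ∀ b2 ∈ SB, a1 - a2 = b1 - b2 →
    c * (a1 + a2) ∈ SA ∧ c * (b1 + b2) ∈ SB

lemma Closed.symm {c : R} {SA SB : Set R} (h : Closed c SA SB) : Closed c SB SA := by
  intro b1 hb1 b2 hb2 a1 ha1 a2 ha2 e
  have := h a1 ha1 a2 ha2 b1 hb1 b2 hb2 e.symm
  exact ⟨this.2, this.1⟩

/-- symmetric sets -/
def Sym (S : Set R) : Prop := ∀ a ∈ S, -a ∈ S

lemma Sym.sg {S : Set R} (h : Sym S) (i : ℤ) (f : K) {a : R} (ha : a ∈ S) :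
    Lamp.sg R i f * a ∈ S := by
  rcases sg_cases (R := R) i f with e | e <;> rw [e]
  · simpa using ha
  · simpa using h a ha

/-- The closure lemma. -/
lemma closure_lemma (c : R) {SA SB : Set R} (hcl : Closed c SA SB) {z : ℤ → K → R}
    (hz : IsX SA SB z) (j : ℕ) : ∀ n : ℤ,
    (∀ f, d (n + j) (A c n (n + j) (z n)) f ∈ SA) ∧
    (∀ f, d n (A c (n + 1) (n + 1 + j) (z (n + 1))) f ∈ SB) := by
  induction j with
  | zero =>
    intro n
    refine ⟨fun f => ?_, fun f => ?_⟩
    · rw [show n + ((0 : ℕ) : ℤ) = n by simp, A_self]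
      exact (hz n).a f
    · rw [show n + 1 + ((0 : ℕ) : ℤ) = n + 1 by simp, A_self]
      exact (hz n).b f
  | succ j ih =>
    intro n
    have e0 : n + ((j + 1 : ℕ) : ℤ) = n + 1 + (j : ℤ) := by push_cast; ring
    have hE : E c n (z n) = E c n (z (n + 1)) := by
      funext f
      simp only [E]
      rw [(hz n).e f]
    -- D_{n,m}
    have hD : d (n + ((j + 1 : ℕ) : ℤ)) (A c n (n + ((j + 1 : ℕ) : ℤ)) (z n)) =
        E c n (d (n + 1 + (j : ℤ)) (A c (n + 1) (n + 1 + (j : ℤ)) (z (n + 1)))) := by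
      rw [e0, A_succ_left c (by omega), hE, A_E, d_E_comm]
    have hU : d n (A c (n + 1) (n + 1 + ((j + 1 : ℕ) : ℤ)) (z (n + 1))) =
        E c (n + 1 + (j : ℤ)) (d n (A c (n + 1) (n + 1 + (j : ℤ)) (z (n + 1)))) := by
      rw [show n + 1 + ((j + 1 : ℕ) : ℤ) = (n + 1 + (j : ℤ)) + 1 by push_cast; ring,
        A_succ_right c (by omega), d_E_comm]
    set w := A c (n + 1) (n + 1 + (j : ℤ)) (z (n + 1)) with hw
    have ihA := (ih (n + 1)).1
    have ihB := (ih n).2
    have key : ∀ f, c * (d (n + 1 + (j : ℤ)) w f + d (n + 1 + (j : ℤ)) w (fl n f)) ∈ SA ∧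
        c * (d n w f + d n w (fl (n + 1 + (j : ℤ)) f)) ∈ SB := by
      intro f
      apply hcl _ (ihA f) _ (ihA (fl n f)) _ (ihB f) _ (ihB (fl (n + 1 + (j : ℤ)) f))
      simp only [d, fl_comm n (n + 1 + (j : ℤ)) f]
      ring
    refine ⟨fun f => ?_, fun f => ?_⟩
    · rw [hD]; exact (key f).1
    · rw [hU]; exact (key f).2

/-- good functions at level `n` -/
def Good (c : R) (SA : Set R) (n : ℤ) (t : K → R) : Prop :=
  ∀ m, n ≤ m → ∀ f, d m (A c n m t) f ∈ SA

lemma good_of_isX (c : R) {SA SB : Set R} (hcl : Closed c SA SB) {z : ℤ → K → R}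
    (hz : IsX SA SB z) (n : ℤ) : Good c SA n (z n) := by
  intro m hm f
  obtain ⟨k, rfl⟩ := Int.le.dest hm
  exact (closure_lemma c hcl hz k n).1 f

lemma up_of_isX (c : R) {SA SB : Set R} (hcl : Closed c SA SB) {z : ℤ → K → R}
    (hz : IsX SA SB z) (n q : ℤ) (h : n < q) (f : K) :
    d n (A c (n + 1) q (z (n + 1))) f ∈ SB := by
  obtain ⟨k, hk⟩ := Int.le.dest (show n + 1 ≤ q by omega)
  have := (closure_lemma c hcl hz k n).2 f
  rwa [hk] at this

/-- the next level -/
noncomputable def nxt (c : R) (n : ℤ) (t u : K → R) : K → R :=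
  fun f => E c n t f + c * (sg R n f * u f)

lemma nxt_step (c : R) (hc : 2 * c = 1) {SA SB : Set R} (hB : Sym SB) {n : ℤ} {t u : K → R}
    (hg : Good c SA n t) (hu : ∀ f, u (fl n f) = u f) (huB : ∀ f, u f ∈ SB) :
    Step SA SB n t (nxt c n t u) := by
  refine ⟨fun f => ?_, fun f => ?_, fun f => ?_⟩
  · simp only [nxt, E, fl_fl, sg_fl_same, hu]
    linear_combination (t f + t (fl n f)) * hc
  · have := hg n le_rfl f
    rwa [A_self] at this
  · have e : nxt c n t u f - nxt c n t u (fl n f) = sg R n f * u f := by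
      simp only [nxt, E, fl_fl, sg_fl_same, hu]
      linear_combination (sg R n f * u f) * hc
    rw [e]
    exact hB.sg n f (huB f)

lemma A_nxt (c : R) (hc : 2 * c = 1) {n q : ℤ} (hq : n < q) (t u : K → R) :
    A c (n + 1) q (nxt c n t u) =
      fun f => A c n q t f + c * (sg R n f * A c (n + 1) q u f) := by
  unfold nxt
  rw [A_add, A_smul, A_sg c (by omega) (by omega), A_succ_left c hq]

lemma d_A_nxt (c : R) (hc : 2 * c = 1) {n m : ℤ} (hm : n < m) (t u : K → R) (f : K) :
    d m (A c (n + 1) m (nxt c n t u)) f =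
      d m (A c n m t) f + c * (sg R n f * d m (A c (n + 1) m u) f) := by
  rw [A_nxt c hc hm]
  simp only [d]
  rw [sg_fl_ne (by omega)]
  ring

lemma nxt_good (c : R) (hc : 2 * c = 1) {SA : Set R} {n : ℤ} {t u : K → R}
    (h : ∀ m, n < m → ∀ f,
      d m (A c n m t) f + c * (sg R n f * d m (A c (n + 1) m u) f) ∈ SA) :
    Good c SA (n + 1) (nxt c n t u) := by
  intro m hm f
  rw [d_A_nxt c hc (by omega)]
  exact h m (by omega) f

/-- Constant drive: always possible. -/
lemma const_step (c : R) (hc : 2 * c = 1) {SA SB : Set R} (hB : Sym SB) {n : ℤ} {t : K → R}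
    (hg : Good c SA n t) {U : R} (hU : U ∈ SB) :
    Step SA SB n t (nxt c n t (fun _ => U)) ∧ Good c SA (n + 1) (nxt c n t (fun _ => U)) := by
  refine ⟨nxt_step c hc hB hg (fun _ => rfl) (fun _ => hU), nxt_good c hc ?_⟩
  intro m hm f
  rw [A_const c hc (by omega)]
  simp only [d, sub_self, mul_zero, add_zero]
  exact hg m (by omega) f

/-- Torsion-freeness. -/
theorem no_torsion (c : R) (hc : 2 * c = 1) {SA SB : Set R} (hcl : Closed c SA SB)
    (h0 : (0 : R) ∉ SA) {z : ℤ → K → R} (hz : IsX SA SB z) (φ : K)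
    (hφ : ∀ n f, z n (f + φ) = z n f) : φ = 0 := by
  by_contra hne
  have hsup : φ.support.Nonempty := Finsupp.support_nonempty_iff.mpr hne
  set m := φ.support.max' hsup with hm
  set n := φ.support.min' hsup with hn
  have hnm : n ≤ m := Finset.min'_le_max' _ _
  have hmem : m ∈ φ.support := Finset.max'_mem _ _
  have hφm : φ m = 1 := by
    have h := Finsupp.mem_support_iff.mp hmem
    generalize φ m = a at h
    revert a
    decide
  -- `w` the average
  have hw1 : ∀ f, A c n m (z n) (f + φ) = A c n m (z n) f := by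
    unfold A
    generalize (m - n).toNat = j
    induction j with
    | zero => exact fun f => hφ n f
    | succ j ih =>
      intro f
      simp only [av, E]
      rw [ih]
      have : fl (n + j) (f + φ) = fl (n + j) f + φ := by
        unfold fl; abel
      rw [this, ih]
  have hd : d m (A c n m (z n)) 0 ∈ SA := good_of_isX c hcl hz n m hnm 0
  apply h0
  have : d m (A c n m (z n)) 0 = 0 := by
    simp only [d]
    rw [← hw1 0, zero_add, sub_eq_zero]
    apply inv_of_agree _ (fun i => n ≤ i ∧ i < m)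
    · intro i hi f
      exact A_inv c hi.1 hi.2 _ f
    · intro i hi
      by_cases him : i = m
      · subst him
        rw [hφm]
        simp [fl]
      · have h1 : φ i = 0 := by
          by_contra hne'
          have hi2 : i ∈ φ.support := Finsupp.mem_support_iff.mpr hne'
          have h3 := Finset.min'_le _ _ hi2
          have h4 := Finset.le_max' _ _ hi2
          exact hi ⟨h3, lt_of_le_of_ne h4 him⟩
        rw [h1, fl_ne him]
        simp
  rwa [this] at hd

end

end Run7.h687.Lamp
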